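import Pool.Agent.MP_3d0d30_nt.ZetaBound
import Mathlib.Analysis.Real.Pi.Bounds
import Mathlib.RingTheory.PiTensorProduct
import Mathlib.Algebra.Order.Antidiag.Nat
import Mathlib.Analysis.SpecialFunctions.Trigonometric.DerivHyp
import Mathlib.Tactic.Polynomial.Basic

-- ======== part 0: formerly Pool.Agent.MP_3d0d30_nt.Kernel
section MrgPart0

set_option autoImplicit false
open MeasureTheory Filter Topology Set Complex

namespace Pool.Agent.MP_3d0d30_nt

/-- `Γ(s) ζ(s)^2` -/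
noncomputable def FF (s : ℂ) : ℂ := Gamma s * riemannZeta s ^ 2

/-- `Γ(s) ζ(s)^2 e^{-s w}` -/
noncomputable def ff (w s : ℂ) : ℂ := FF s * cexp (-s * w)

/-- the number of divisors -/
noncomputable def dd (n : ℕ) : ℝ := (n.divisors.card : ℝ)

theorem dd_nonneg (n : ℕ) : 0 ≤ dd n := Nat.cast_nonneg _

theorem differentiableAt_FF {s : ℂ} (hs : 0 < s.re) (hs1 : s ≠ 1) : DifferentiableAt ℂ FF s :=
  (differentiableAt_Gamma_of_re_pos hs).mul ((differentiableAt_riemannZeta hs1).pow 2)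

theorem differentiableAt_ff (w : ℂ) {s : ℂ} (hs : 0 < s.re) (hs1 : s ≠ 1) :
    DifferentiableAt ℂ (ff w) s :=
  (differentiableAt_FF hs hs1).mul (by fun_prop)

theorem line_ne_one {σ : ℝ} (hσ : σ ≠ 1) (t : ℝ) : (σ : ℂ) + t * I ≠ 1 := by
  intro h
  have := congrArg re h
  simp at this
  exact hσ this

theorem continuous_FF_line {σ : ℝ} (hσ : 0 < σ) (hσ1 : σ ≠ 1) :
    Continuous (fun t : ℝ => FF (σ + t * I)) := by
  rw [continuous_iff_continuousAt]
  intro t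
  exact ContinuousAt.comp (f := fun t : ℝ => (σ : ℂ) + t * I)
    (differentiableAt_FF (by simpa using hσ) (line_ne_one hσ1 t)).continuousAt (by fun_prop)

theorem norm_ff (σ t u θ : ℝ) : ‖ff (u + θ * I) (σ + t * I)‖ =
    ‖FF (σ + t * I)‖ * Real.exp (t * θ) * Real.exp (-σ * u) := by
  rw [ff, norm_mul, norm_cexp_neg_mul, Real.exp_add]
  ring

theorem FF_bound {θ : ℝ} (hθ0 : 0 ≤ θ) (hθ : θ < Real.pi / 2) :
    ∃ K c : ℝ, 0 ≤ K ∧ 0 < c ∧ c ≤ 1 ∧ ∀ σ ∈ Icc (1 / 4 : ℝ) 2, ∀ t : ℝ, 1 ≤ |t| →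
      ‖FF (σ + t * I)‖ * Real.exp (t * θ) ≤ K * Real.exp (-c * |t|) := by
  set β := (θ + Real.pi / 2) / 2 with hβ
  set c := (β - θ) / 2 with hc
  have hc0 : 0 < c := by rw [hc, hβ]; linarith
  have hc1 : c ≤ 1 := by rw [hc, hβ]; linarith [Real.pi_le_four]
  refine ⟨Real.exp (8 / Real.cos β) * 8 * (225 * (2 / c ^ 2)), c, by positivity, hc0, hc1, ?_⟩
  intro σ hσ t ht
  have h1 := norm_Gamma_le hσ (β := β) (by linarith) (by rw [hβ]; linarith) t
  have h2 := norm_zeta_strip_le hσ ht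
  have h3 : Real.exp (t * θ) ≤ Real.exp (θ * |t|) := by
    have := mul_le_mul_of_nonneg_left (le_abs_self t) hθ0
    exact Real.exp_le_exp.mpr (by linarith)
  have h4 : |t| ^ 2 ≤ 2 / c ^ 2 * Real.exp (c * |t|) := by
    have h5 := Real.quadratic_le_exp_of_nonneg (x := c * |t|) (by positivity)
    have h6 : 0 ≤ c * |t| := by positivity
    rw [div_mul_eq_mul_div, le_div_iff₀ (by positivity)]
    nlinarith
  have h5 : ‖riemannZeta (σ + t * I)‖ ^ 2 ≤ 225 * (2 / c ^ 2 * Real.exp (c * |t|)) := by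
    calc _ ≤ (15 * |t|) ^ 2 := by gcongr
      _ = 225 * |t| ^ 2 := by ring
      _ ≤ _ := by gcongr
  rw [FF, norm_mul, norm_pow]
  calc _ ≤ (Real.exp (8 / Real.cos β) * 8) * Real.exp (-β * |t|) *
        (225 * (2 / c ^ 2 * Real.exp (c * |t|))) * Real.exp (θ * |t|) := by gcongr
    _ = Real.exp (8 / Real.cos β) * 8 * (225 * (2 / c ^ 2)) *
        (Real.exp (-β * |t|) * Real.exp (c * |t|) * Real.exp (θ * |t|)) := by ring
    _ = _ := by
      rw [← Real.exp_add, ← Real.exp_add]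
      congr 2
      rw [hc]; ring

theorem ff_bound {θ : ℝ} (hθ0 : 0 ≤ θ) (hθ : θ < Real.pi / 2) (u : ℝ) :
    ∃ K c : ℝ, 0 ≤ K ∧ 0 < c ∧ c ≤ 1 ∧ ∀ σ ∈ Icc (1 / 4 : ℝ) 2, ∀ t : ℝ, 1 ≤ |t| →
      ‖ff (u + θ * I) (σ + t * I)‖ ≤ K * Real.exp (-c * |t|) := by
  obtain ⟨K, c, hK, hc0, hc1, h⟩ := FF_bound hθ0 hθ
  refine ⟨K * Real.exp (2 * |u|), c, by positivity, hc0, hc1, ?_⟩
  intro σ hσ t ht
  rw [norm_ff]
  have h1 : Real.exp (-σ * u) ≤ Real.exp (2 * |u|) := by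
    apply Real.exp_le_exp.mpr
    have h2 : -σ * u ≤ |σ * u| := by rw [neg_mul]; exact neg_le_abs _
    rw [abs_mul, abs_of_nonneg (by linarith [hσ.1] : 0 ≤ σ)] at h2
    have := mul_le_mul_of_nonneg_right hσ.2 (abs_nonneg u)
    linarith
  calc _ ≤ K * Real.exp (-c * |t|) * Real.exp (2 * |u|) :=
        mul_le_mul (h σ hσ t ht) h1 (by positivity) (by positivity)
    _ = _ := by ring

theorem integrable_ff {θ σ : ℝ} (hθ0 : 0 ≤ θ) (hθ : θ < Real.pi / 2) (u : ℝ)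
    (hσ : σ ∈ Icc (1 / 4 : ℝ) 2) (hσ1 : σ ≠ 1) :
    Integrable (fun t : ℝ => ff (u + θ * I) (σ + t * I)) := by
  obtain ⟨K, c, -, hc0, -, h⟩ := ff_bound hθ0 hθ u
  exact integrable_of_decay hc0
    ((continuous_FF_line (by linarith [hσ.1]) hσ1).mul (by fun_prop)) (h σ hσ)

theorem shift_ff {θ a b : ℝ} (hθ0 : 0 ≤ θ) (hθ : θ < Real.pi / 2) (u : ℝ) (ha : 1 / 4 ≤ a)
    (hab : a ≤ b) (hb : b < 1) :
    ∫ t : ℝ, ff (u + θ * I) (a + t * I) = ∫ t : ℝ, ff (u + θ * I) (b + t * I) := by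
  obtain ⟨K, c, -, hc0, -, h⟩ := ff_bound hθ0 hθ u
  refine shift (C := K) hab hc0 ?_ ?_
  · intro z hz
    refine (differentiableAt_ff _ (by linarith [hz.1]) ?_).differentiableWithinAt
    intro h1
    have := hz.2
    rw [h1] at this
    simp at this
    linarith
  · intro σ hσ
    exact h σ ⟨by linarith [hσ.1], by linarith [hσ.2]⟩

/-- the function on the critical line whose Fourier transform is studied -/
noncomputable def gg (θ t : ℝ) : ℂ := FF (((1 / 2 : ℝ) : ℂ) + t * I) * cexp (t * θ)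

theorem norm_gg (θ t : ℝ) : ‖gg θ t‖ = ‖FF (((1 / 2 : ℝ) : ℂ) + t * I)‖ * Real.exp (t * θ) := by
  rw [gg, norm_mul, ← ofReal_mul, norm_exp_ofReal]

theorem continuous_gg (θ : ℝ) : Continuous (gg θ) :=
  (continuous_FF_line (by norm_num) (by norm_num)).mul (by fun_prop)

theorem integrable_gg {θ : ℝ} (hθ0 : 0 ≤ θ) (hθ : θ < Real.pi / 2) : Integrable (gg θ) := by
  obtain ⟨K, c, -, hc0, -, h⟩ := FF_bound hθ0 hθ
  refine integrable_of_decay (C := K) hc0 (continuous_gg θ) ?_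
  intro t ht
  rw [norm_gg]
  exact h _ ⟨by norm_num, by norm_num⟩ t ht

theorem FT_gg (θ u : ℝ) : FT (gg θ) u =
    cexp ((u + θ * I) / 2) * ∫ t : ℝ, ff (u + θ * I) (((1 / 2 : ℝ) : ℂ) + t * I) := by
  rw [FT, ← integral_const_mul]
  congr 1
  ext t
  rw [gg, ff, mul_assoc, ← exp_add, mul_left_comm, ← exp_add]
  congr 2
  push_cast
  linear_combination ((t : ℂ) * θ) * I_mul_I

theorem norm_cexp_half (u θ : ℝ) : ‖cexp ((u + θ * I) / 2)‖ = Real.exp (u / 2) := by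
  rw [norm_exp]
  congr 1
  simp

theorem norm_integral_ff_le (θ σ u : ℝ) : ‖∫ t : ℝ, ff (u + θ * I) (σ + t * I)‖ ≤
    (∫ t : ℝ, ‖FF (σ + t * I)‖ * Real.exp (t * θ)) * Real.exp (-σ * u) := by
  refine le_trans (norm_integral_le_integral_norm _) (le_of_eq ?_)
  simp_rw [norm_ff]
  rw [integral_mul_const]

theorem integrable_FT_gg {θ : ℝ} (hθ0 : 0 ≤ θ) (hθ : θ < Real.pi / 2) :
    Integrable (FT (gg θ)) := by
  set M : ℝ → ℝ := fun σ => ∫ t : ℝ, ‖FF (σ + t * I)‖ * Real.exp (t * θ) with hM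
  have hM0 : ∀ σ, 0 ≤ M σ := fun σ => integral_nonneg fun t => by positivity
  refine integrable_of_decay (C := M (1 / 4) + M (3 / 4)) (c := 1 / 4) (by norm_num)
    (continuous_FT (integrable_gg hθ0 hθ)) ?_
  intro u _
  rw [FT_gg, norm_mul, norm_cexp_half]
  rcases le_total 0 u with hu | hu
  · rw [shift_ff hθ0 hθ u (b := 3 / 4) (by norm_num) (by norm_num) (by norm_num),
      abs_of_nonneg hu]
    calc _ ≤ Real.exp (u / 2) * (M (3 / 4) * Real.exp (-(3 / 4) * u)) := by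
          gcongr; exact norm_integral_ff_le θ _ u
      _ = M (3 / 4) * Real.exp (-(1 / 4) * u) := by
          rw [mul_left_comm, ← Real.exp_add]; congr 2; ring
      _ ≤ _ := by gcongr; linarith [hM0 (1 / 4)]
  · rw [← shift_ff hθ0 hθ u (a := 1 / 4) (by norm_num) (by norm_num) (by norm_num),
      abs_of_nonpos hu]
    calc _ ≤ Real.exp (u / 2) * (M (1 / 4) * Real.exp (-(1 / 4) * u)) := by
          gcongr; exact norm_integral_ff_le θ _ u
      _ = M (1 / 4) * Real.exp (-(1 / 4) * -u) := by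
          rw [mul_left_comm, ← Real.exp_add]; congr 2; ring
      _ ≤ _ := by gcongr; linarith [hM0 (3 / 4)]

theorem hasSum_zeta_sq {s : ℂ} (hs : 1 < s.re) :
    LSeriesHasSum (fun n => (dd n : ℂ)) s (riemannZeta s ^ 2) := by
  have h := (LSeriesHasSum_one hs).convolution (LSeriesHasSum_one hs)
  rw [LSeries.convolution_def] at h
  rw [sq]
  convert h using 2 with n
  rw [Nat.sum_divisorsAntidiagonal (fun a b => (1 : ℕ → ℂ) a * (1 : ℕ → ℂ) b)]
  simp [dd]

/-- evaluation on the line of absolute convergence -/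
theorem hasSum_right {θ : ℝ} (hθ0 : 0 ≤ θ) (hθ : θ < Real.pi / 2) (u : ℝ) :
    HasSum (fun n : ℕ => 2 * Real.pi * ((dd n : ℂ) * cexp (-(n * cexp (u + θ * I)))))
      (∫ t : ℝ, ff (u + θ * I) (((2 : ℝ) : ℂ) + t * I)) := by
  have h2 : (2 : ℝ) ∈ Icc (1 / 4 : ℝ) 2 := ⟨by norm_num, le_rfl⟩
  set F : ℕ → ℝ → ℂ := fun n t => LSeries.term (fun n => (dd n : ℂ)) (((2 : ℝ) : ℂ) + t * I) n *
    (Gamma (((2 : ℝ) : ℂ) + t * I) * cexp (-(((2 : ℝ) : ℂ) + t * I) * (u + θ * I))) with hF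
  have hFn : ∀ n : ℕ, n ≠ 0 → ∀ t : ℝ, F n t = (dd n : ℂ) * (Gamma (((2 : ℝ) : ℂ) + t * I) *
      cexp (-(((2 : ℝ) : ℂ) + t * I) * ((u + Real.log n : ℝ) + θ * I))) := by
    intro n hn t
    have hn' : (n : ℂ) ≠ 0 := by exact_mod_cast hn
    simp only [hF]
    rw [LSeries.term_of_ne_zero hn, cpow_def_of_ne_zero hn', div_eq_mul_inv, ← exp_neg,
      ← natCast_log, mul_assoc, mul_left_comm (cexp _), ← exp_add]
    congr 3
    push_cast
    ring
  have hF0 : F 0 = fun _ => 0 := by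
    ext t; simp [hF]
  have hint : ∀ n, Integrable (F n) := by
    intro n
    rcases eq_or_ne n 0 with rfl | hn
    · rw [hF0]; exact integrable_zero _ _ _
    · have : F n = _ := funext (hFn n hn)
      rw [this]
      exact (integrable_Gamma_cexp h2 hθ0 hθ _).const_mul _
  have hsum : Summable fun n => ∫ t, ‖F n t‖ := by
    have h3 : ∀ n, ∫ t, ‖F n t‖ = ‖LSeries.term (fun n => (dd n : ℂ)) 2 n‖ *
        ∫ t : ℝ, ‖Gamma (((2 : ℝ) : ℂ) + t * I) *
          cexp (-(((2 : ℝ) : ℂ) + t * I) * (u + θ * I))‖ := by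
      intro n
      rw [← integral_const_mul]
      congr 1
      ext t
      simp only [hF]
      rw [norm_mul, LSeries.norm_term_eq, LSeries.norm_term_eq]
      simp
    simp_rw [h3]
    exact (hasSum_zeta_sq (s := 2) (by simp)).summable.norm.mul_right _
  have h := hasSum_integral_of_summable_integral_norm hint hsum
  have e1 : (fun n : ℕ => 2 * Real.pi * ((dd n : ℂ) * cexp (-(n * cexp (u + θ * I))))) =
      fun n => ∫ t, F n t := by
    ext n
    rcases eq_or_ne n 0 with rfl | hn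
    · rw [hF0]; simp [dd]
    · have hn' : (0 : ℝ) < n := by exact_mod_cast Nat.pos_of_ne_zero hn
      simp_rw [hFn n hn]
      rw [integral_const_mul, cahen_mellin h2 hθ0 hθ]
      have : cexp ((u + Real.log n : ℝ) + θ * I) = n * cexp (u + θ * I) := by
        rw [ofReal_add, add_right_comm, exp_add, ← ofReal_exp, Real.exp_log hn']
        push_cast; ring
      rw [this]; ring
  have e2 : (∫ t : ℝ, ff (u + θ * I) (((2 : ℝ) : ℂ) + t * I)) = ∫ t, ∑' n, F n t := by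
    congr 1
    ext t
    simp only [hF]
    rw [tsum_mul_right, (hasSum_zeta_sq (s := ((2 : ℝ) : ℂ) + t * I) (by simp)).tsum_eq, ff, FF]
    ring
  rw [e1, e2]
  exact h

end Pool.Agent.MP_3d0d30_nt

end MrgPart0

-- ======== part 1: formerly Pool.Agent.MP_3d0d30_nt.Pole
section MrgPart1

set_option autoImplicit false
open MeasureTheory Filter Topology Set Complex

namespace Pool.Agent.MP_3d0d30_nt

/-- the polar part, damped by a Gaussian -/
noncomputable def polar (A B s : ℂ) : ℂ := (A / (s - 1) ^ 2 + B / (s - 1)) * cexp ((s - 1) ^ 2)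

theorem norm_gauss (σ t : ℝ) :
    ‖cexp (((σ : ℂ) + t * I - 1) ^ 2)‖ = Real.exp ((σ - 1) ^ 2) * Real.exp (-1 * t ^ 2) := by
  rw [norm_exp, ← Real.exp_add]
  congr 1
  simp [sq]
  ring

theorem norm_polar_le (A B : ℂ) (σ t : ℝ) {m : ℝ} (hm : 0 < m) (h : m ≤ ‖(σ : ℂ) + t * I - 1‖) :
    ‖polar A B (σ + t * I)‖ ≤
      ((‖A‖ / m ^ 2 + ‖B‖ / m) * Real.exp ((σ - 1) ^ 2)) * Real.exp (-1 * t ^ 2) := by
  rw [polar, norm_mul, norm_gauss, ← mul_assoc]
  gcongr
  refine le_trans (norm_add_le _ _) ?_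
  rw [norm_div, norm_div, norm_pow]
  gcongr

theorem abs_le_norm_line (σ t : ℝ) : |σ - 1| ≤ ‖(σ : ℂ) + t * I - 1‖ := by
  have := abs_re_le_norm ((σ : ℂ) + t * I - 1)
  simpa using this

theorem abs_le_norm_line' (σ t : ℝ) : |t| ≤ ‖(σ : ℂ) + t * I - 1‖ := by
  have := abs_im_le_norm ((σ : ℂ) + t * I - 1)
  simpa using this

theorem integrable_polar (A B : ℂ) {σ : ℝ} (hσ : σ ≠ 1) :
    Integrable (fun t : ℝ => polar A B (σ + t * I)) := by
  have hm : 0 < |σ - 1| := abs_pos.mpr (sub_ne_zero.mpr hσ)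
  refine Integrable.mono' ((integrable_exp_neg_mul_sq one_pos).const_mul _) ?_
    (Eventually.of_forall fun t => norm_polar_le A B σ t hm (abs_le_norm_line σ t))
  apply Continuous.aestronglyMeasurable
  have h : ∀ t : ℝ, (σ : ℂ) + t * I - 1 ≠ 0 := fun t => sub_ne_zero.mpr (line_ne_one hσ t)
  unfold polar
  refine Continuous.mul (Continuous.add ?_ ?_) (by fun_prop)
  · exact continuous_const.div (by fun_prop) fun t => pow_ne_zero 2 (h t)
  · exact continuous_const.div (by fun_prop) h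

theorem norm_integral_polar_le (A B : ℂ) {σ : ℝ} (hσ : σ ≠ 1) :
    ‖∫ t : ℝ, polar A B (σ + t * I)‖ ≤
      ((‖A‖ / |σ - 1| ^ 2 + ‖B‖ / |σ - 1|) * Real.exp ((σ - 1) ^ 2)) * √Real.pi := by
  have hm : 0 < |σ - 1| := abs_pos.mpr (sub_ne_zero.mpr hσ)
  refine le_trans (norm_integral_le_of_norm_le ((integrable_exp_neg_mul_sq one_pos).const_mul _)
    (Eventually.of_forall fun t => norm_polar_le A B σ t hm (abs_le_norm_line σ t))) ?_
  rw [integral_const_mul, integral_gaussian, div_one]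

theorem cross {θ : ℝ} (hθ0 : 0 ≤ θ) (hθ : θ < Real.pi / 2) (u : ℝ) :
    (∫ t : ℝ, ff (u + θ * I) (((1 / 2 : ℝ) : ℂ) + t * I)) -
      (∫ t : ℝ, ff (u + θ * I) (((2 : ℝ) : ℂ) + t * I)) =
    (∫ t : ℝ, polar (cexp (-(u + θ * I)))
        ((Real.eulerMascheroniConstant - (u + θ * I)) * cexp (-(u + θ * I)))
        (((1 / 2 : ℝ) : ℂ) + t * I)) -
      (∫ t : ℝ, polar (cexp (-(u + θ * I)))
        ((Real.eulerMascheroniConstant - (u + θ * I)) * cexp (-(u + θ * I)))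
        (((2 : ℝ) : ℂ) + t * I)) := by
  set w : ℂ := u + θ * I with hw
  set A : ℂ := cexp (-w) with hA
  set B : ℂ := (Real.eulerMascheroniConstant - w) * cexp (-w) with hB
  set k : ℂ → ℂ := fun s => riemannZeta₁ s ^ 2 * Gamma s * cexp (-s * w) -
    (A + B * (s - 1)) * cexp ((s - 1) ^ 2) with hk
  set U : Set ℂ := {z | 0 < z.re} with hU
  have hUn : U ∈ 𝓝 (1 : ℂ) := (isOpen_lt continuous_const continuous_re).mem_nhds (by simp)
  have hkd : DifferentiableOn ℂ k U := by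
    intro z hz
    have := differentiableAt_Gamma_of_re_pos hz
    exact (by fun_prop : DifferentiableAt ℂ (fun s => riemannZeta₁ s ^ 2 * Gamma s * cexp (-s * w) -
      (A + B * (s - 1)) * cexp ((s - 1) ^ 2)) z).differentiableWithinAt
  have hk1 : k 1 = 0 := by simp [hk, hA]
  have hk2 : deriv k 1 = 0 := by
    have h1 : HasDerivAt riemannZeta₁ (Real.eulerMascheroniConstant : ℂ) 1 := by
      rw [← deriv_riemannZeta₁_one]
      exact (differentiable_riemannZeta₁ 1).hasDerivAt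
    have h2 := Complex.hasDerivAt_Gamma_one
    have h3 : HasDerivAt (fun s : ℂ => cexp (-s * w)) (cexp (-1 * w) * (-1 * w)) 1 :=
      ((hasDerivAt_id (1 : ℂ)).neg.mul_const w).cexp
    have h4 : HasDerivAt (fun s : ℂ => A + B * (s - 1)) (B * 1) 1 :=
      (((hasDerivAt_id (1 : ℂ)).sub_const 1).const_mul B).const_add A
    have h5 : HasDerivAt (fun s : ℂ => cexp ((s - 1) ^ 2))
        (cexp (((1 : ℂ) - 1) ^ 2) * ((2 : ℕ) * ((1 : ℂ) - 1) ^ (2 - 1) * 1)) 1 :=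
      (((hasDerivAt_id (1 : ℂ)).sub_const 1).pow 2).cexp
    have h6 := (((h1.pow 2).mul h2).mul h3).sub (h4.mul h5)
    have h7 : HasDerivAt k _ 1 := h6
    rw [h7.deriv]
    simp [hB]
    ring
  set q : ℂ → ℂ := dslope (dslope k 1) 1 with hq
  have hqd : DifferentiableOn ℂ q U :=
    (differentiableOn_dslope hUn).mpr ((differentiableOn_dslope hUn).mpr hkd)
  have hqe : ∀ s : ℂ, s ≠ 1 → q s = ff w s - polar A B s := by
    intro s hs
    have hs' : s - 1 ≠ 0 := sub_ne_zero.mpr hs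
    rw [hq, dslope_of_ne _ hs, slope_def_field, dslope_same, hk2, dslope_of_ne _ hs,
      slope_def_field, hk1, ff, FF, polar, riemannZeta_eq_inv_sub_mul hs]
    simp only [hk]
    field_simp
    ring
  obtain ⟨K, c, hK, hc0, hc1, hb⟩ := ff_bound hθ0 hθ u
  have hsh := shift (f := q) (a := 1 / 2) (b := 2) (c := c)
    (C := K + (‖A‖ + ‖B‖) * Real.exp 1) (by norm_num) hc0
    (hqd.mono fun z hz => by
      have := hz.1
      simp only [hU, mem_ofPred_eq]
      linarith) (by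
      intro σ hσ t ht
      have hne : (σ : ℂ) + t * I ≠ 1 := by
        intro h
        have := abs_le_norm_line' σ t
        rw [h, sub_self, norm_zero] at this
        linarith
      rw [hqe _ hne]
      refine le_trans (norm_sub_le _ _) ?_
      have h1 := hb σ ⟨by linarith [hσ.1], hσ.2⟩ t ht
      have h2 := norm_polar_le A B σ t one_pos (le_trans ht (abs_le_norm_line' σ t))
      have h3 : Real.exp ((σ - 1) ^ 2) ≤ Real.exp 1 :=
        Real.exp_le_exp.mpr (by nlinarith [hσ.1, hσ.2])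
      have h4 : Real.exp (-1 * t ^ 2) ≤ Real.exp (-c * |t|) := by
        apply Real.exp_le_exp.mpr
        rw [← sq_abs]
        nlinarith
      have h5 : ‖polar A B (σ + t * I)‖ ≤ ((‖A‖ + ‖B‖) * Real.exp 1) * Real.exp (-c * |t|) := by
        refine le_trans h2 ?_
        rw [one_pow, div_one, div_one]
        gcongr
      rw [add_mul]
      exact add_le_add h1 h5)
  have e1 : ∀ σ : ℝ, σ ∈ Icc (1 / 4 : ℝ) 2 → σ ≠ 1 → ∫ t : ℝ, q (σ + t * I) =
      (∫ t : ℝ, ff w (σ + t * I)) - ∫ t : ℝ, polar A B (σ + t * I) := by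
    intro σ hσ hσ1
    rw [← integral_sub (integrable_ff hθ0 hθ u hσ hσ1) (integrable_polar A B hσ1)]
    congr 1
    ext t
    exact hqe _ (line_ne_one hσ1 t)
  rw [e1 _ ⟨by norm_num, by norm_num⟩ (by norm_num), e1 _ ⟨by norm_num, by norm_num⟩ (by norm_num)]
    at hsh
  linear_combination hsh

theorem sqrt_pi_le : √Real.pi ≤ 1.78 := by
  rw [Real.sqrt_le_left (by norm_num)]
  linarith [Real.pi_lt_d2]

theorem exp_quarter_le : Real.exp (1 / 4) ≤ 4 / 3 := by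
  have := Real.one_sub_le_exp_neg (1 / 4)
  rw [Real.exp_neg, le_inv_comm₀ (by norm_num) (Real.exp_pos _)] at this
  linarith

theorem norm_cross_le {θ : ℝ} (hθ0 : 0 ≤ θ) (hθ : θ < Real.pi / 2) {u : ℝ} (hu : 0 ≤ u) :
    ‖(∫ t : ℝ, ff (u + θ * I) (((1 / 2 : ℝ) : ℂ) + t * I)) -
      (∫ t : ℝ, ff (u + θ * I) (((2 : ℝ) : ℂ) + t * I))‖ ≤ 40 * Real.exp (-(3 / 4) * u) := by
  rw [cross hθ0 hθ]
  set A : ℂ := cexp (-(u + θ * I)) with hA
  set B : ℂ := (Real.eulerMascheroniConstant - (u + θ * I)) * A with hB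
  have hAn : ‖A‖ = Real.exp (-u) := by
    rw [hA, norm_exp]; simp
  have hBn : ‖B‖ ≤ (2.24 + u) * Real.exp (-u) := by
    rw [hB, norm_mul, hAn]
    gcongr
    refine le_trans (norm_sub_le _ _) ?_
    have h1 := norm_line_le u θ
    rw [abs_of_nonneg hu, abs_of_nonneg hθ0] at h1
    have h2 := Real.eulerMascheroniConstant_lt_two_thirds
    have h3 := Real.one_half_lt_eulerMascheroniConstant
    rw [norm_real, Real.norm_of_nonneg (by linarith)]
    linarith [Real.pi_lt_d4]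
  have h1 := norm_integral_polar_le A B (σ := 1 / 2) (by norm_num)
  have h2 := norm_integral_polar_le A B (σ := 2) (by norm_num)
  have e1 : |(1 / 2 : ℝ) - 1| = 1 / 2 := by norm_num [abs_of_neg]
  have e2 : |(2 : ℝ) - 1| = 1 := by norm_num
  have e3 : ((1 / 2 : ℝ) - 1) ^ 2 = 1 / 4 := by norm_num
  have e4 : ((2 : ℝ) - 1) ^ 2 = 1 := by norm_num
  rw [e1, e3] at h1
  rw [e2, e4] at h2
  have hE := Real.exp_pos (-u)
  have h3 : ‖∫ t : ℝ, polar A B (((1 / 2 : ℝ) : ℂ) + t * I)‖ ≤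
      ((Real.exp (-u) / (1 / 2) ^ 2 + (2.24 + u) * Real.exp (-u) / (1 / 2)) * (4 / 3)) * 1.78 := by
    refine le_trans h1 ?_
    rw [hAn]
    gcongr
    · exact exp_quarter_le
    · exact sqrt_pi_le
  have h4 : ‖∫ t : ℝ, polar A B (((2 : ℝ) : ℂ) + t * I)‖ ≤
      ((Real.exp (-u) / 1 ^ 2 + (2.24 + u) * Real.exp (-u) / 1) * 2.72) * 1.78 := by
    refine le_trans h2 ?_
    rw [hAn]
    gcongr
    · linarith [Real.exp_one_lt_d9]
    · exact sqrt_pi_le
  have h5 : (36 + 10 * u) * Real.exp (-u) ≤ 40 * Real.exp (-(3 / 4) * u) := by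
    have h6 := Real.add_one_le_exp (u / 4)
    have h7 : Real.exp (-(3 / 4) * u) = Real.exp (u / 4) * Real.exp (-u) := by
      rw [← Real.exp_add]; congr 1; ring
    rw [h7]
    nlinarith
  refine le_trans (norm_sub_le _ _) ?_
  have h8 : 0 ≤ u * Real.exp (-u) := by positivity
  have h9 : ((Real.exp (-u) / (1 / 2) ^ 2 + (2.24 + u) * Real.exp (-u) / (1 / 2)) * (4 / 3)) * 1.78
      + ((Real.exp (-u) / 1 ^ 2 + (2.24 + u) * Real.exp (-u) / 1) * 2.72) * 1.78 ≤
      (36 + 10 * u) * Real.exp (-u) := by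
    norm_num
    nlinarith
  linarith

end Pool.Agent.MP_3d0d30_nt

end MrgPart1

-- ======== part 2: formerly Pool.Agent.MP_3d0d30_nt.FuncEq
section MrgPart2

set_option autoImplicit false
open MeasureTheory Filter Topology Set Complex

namespace Pool.Agent.MP_3d0d30_nt

/-- `log (2 π)` -/
noncomputable def aa : ℝ := Real.log (2 * Real.pi)

theorem exp_aa : Real.exp aa = 2 * Real.pi := Real.exp_log (by positivity)

/-- the defect of `gg` from exact self-duality -/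
noncomputable def hh (θ t : ℝ) : ℂ :=
  gg θ t - I * (cexp ((2 * aa * t : ℝ) * I) * (starRingEnd ℂ) (gg θ t))

theorem continuous_hh (θ : ℝ) : Continuous (hh θ) := by
  have := continuous_gg θ
  unfold hh
  fun_prop

theorem integrable_dual {θ : ℝ} (hθ0 : 0 ≤ θ) (hθ : θ < Real.pi / 2) (u : ℝ) :
    Integrable (fun t : ℝ => cexp ((2 * aa * t : ℝ) * I) * (starRingEnd ℂ) (gg θ t) *
      cexp (-(t * u : ℝ) * I)) := by
  have := continuous_gg θ
  refine Integrable.mono' (integrable_gg hθ0 hθ).norm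
    (Continuous.aestronglyMeasurable (by fun_prop)) ?_
  filter_upwards with t
  rw [norm_mul, norm_mul, norm_cexp_neg_mul_I, norm_exp_ofReal_mul_I, RCLike.norm_conj]
  simp

theorem integrable_hh {θ : ℝ} (hθ0 : 0 ≤ θ) (hθ : θ < Real.pi / 2) : Integrable (hh θ) := by
  have h := integrable_dual hθ0 hθ 0
  simp only [mul_zero, ofReal_zero, neg_zero, zero_mul, exp_zero, mul_one] at h
  exact (integrable_gg hθ0 hθ).sub (h.const_mul I)

theorem FT_hh {θ : ℝ} (hθ0 : 0 ≤ θ) (hθ : θ < Real.pi / 2) (u : ℝ) :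
    FT (hh θ) u = FT (gg θ) u - I * (starRingEnd ℂ) (FT (gg θ) (2 * aa - u)) := by
  have h1 : Integrable (fun t : ℝ => gg θ t * cexp (-(t * u : ℝ) * I)) := by
    have := continuous_gg θ
    refine Integrable.mono' (integrable_gg hθ0 hθ).norm
      (Continuous.aestronglyMeasurable (by fun_prop)) ?_
    filter_upwards with t
    rw [norm_mul, norm_cexp_neg_mul_I, mul_one]
  have h2 : (starRingEnd ℂ) (FT (gg θ) (2 * aa - u)) =
      ∫ t : ℝ, cexp ((2 * aa * t : ℝ) * I) * (starRingEnd ℂ) (gg θ t) *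
        cexp (-(t * u : ℝ) * I) := by
    rw [FT, ← integral_conj]
    congr 1
    ext t
    rw [map_mul, ← exp_conj, mul_comm (cexp _), mul_assoc, ← exp_add]
    congr 2
    simp only [map_mul, map_neg, conj_ofReal, conj_I]
    push_cast
    ring
  rw [h2, FT, FT, ← integral_const_mul, ← integral_sub h1 ((integrable_dual hθ0 hθ u).const_mul I)]
  congr 1
  ext t
  rw [hh]
  ring

theorem integrable_FT_hh {θ : ℝ} (hθ0 : 0 ≤ θ) (hθ : θ < Real.pi / 2) :
    Integrable (FT (hh θ)) := by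
  have h : FT (hh θ) = _ := funext (FT_hh hθ0 hθ)
  rw [h]
  have h1 := integrable_FT_gg hθ0 hθ
  have h2 : Integrable (fun u => FT (gg θ) (2 * aa - u)) := h1.comp_sub_left _
  have h3 : Integrable (fun u => (starRingEnd ℂ) (FT (gg θ) (2 * aa - u))) := by
    refine Integrable.mono' h2.norm (continuous_conj.comp_aestronglyMeasurable h2.1) ?_
    filter_upwards with u
    simp
  exact h1.sub (h3.const_mul I)

theorem conj_half (t : ℝ) :
    (starRingEnd ℂ) (((1 / 2 : ℝ) : ℂ) + t * I) = 1 - (((1 / 2 : ℝ) : ℂ) + t * I) := by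
  simp only [map_add, map_mul, conj_ofReal, conj_I]
  push_cast
  ring

theorem sin_pi_half (t : ℝ) :
    sin (Real.pi * (((1 / 2 : ℝ) : ℂ) + t * I)) = (Real.cosh (Real.pi * t) : ℝ) := by
  have : (Real.pi : ℂ) * (((1 / 2 : ℝ) : ℂ) + t * I) = (Real.pi * t : ℝ) * I + Real.pi / 2 := by
    push_cast; ring
  rw [this, sin_add_pi_div_two, cos_mul_I, ofReal_cosh]

theorem norm_Gamma_half_sq (t : ℝ) :
    ‖Gamma (((1 / 2 : ℝ) : ℂ) + t * I)‖ ^ 2 = Real.pi / Real.cosh (Real.pi * t) := by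
  have h := Gamma_mul_Gamma_one_sub (((1 / 2 : ℝ) : ℂ) + t * I)
  rw [← conj_half, Gamma_conj, mul_conj, sin_pi_half, normSq_eq_norm_sq] at h
  exact_mod_cast h

theorem norm_gg_sq (θ t : ℝ) : ‖gg θ t‖ ^ 2 = Real.pi / Real.cosh (Real.pi * t) *
    ‖riemannZeta (1 / 2 + t * I)‖ ^ 4 * Real.exp (2 * θ * t) := by
  rw [norm_gg, FF, norm_mul, mul_pow, mul_pow, norm_Gamma_half_sq, norm_pow, ← pow_mul,
    ← Real.exp_nat_mul]
  push_cast
  congr 2
  ring

theorem normSq_sin_quarter (t : ℝ) :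
    ‖sin (Real.pi * (((1 / 2 : ℝ) : ℂ) + t * I) / 2)‖ ^ 2 = Real.cosh (Real.pi * t) / 2 := by
  have : (Real.pi : ℂ) * (((1 / 2 : ℝ) : ℂ) + t * I) / 2 =
      (Real.pi / 4 : ℝ) + (Real.pi * t / 2 : ℝ) * I := by
    push_cast; ring
  rw [this, sin_add_mul_I, ← ofReal_sin, ← ofReal_cos, ← ofReal_cosh, ← ofReal_sinh,
    ← ofReal_mul, ← ofReal_mul, ← normSq_eq_norm_sq, normSq_add_mul_I, Real.sin_pi_div_four,
    Real.cos_pi_div_four]
  have h2 : Real.cosh (Real.pi * t) = Real.cosh (2 * (Real.pi * t / 2)) := by congr 1; ring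
  have h3 : √2 ^ 2 = (2 : ℝ) := Real.sq_sqrt (by norm_num)
  rw [h2, Real.cosh_two_mul]
  linear_combination (Real.cosh (Real.pi * t / 2) ^ 2 + Real.sinh (Real.pi * t / 2) ^ 2) / 4 * h3

theorem FF_funeq (t : ℝ) :
    cexp ((2 * aa * t : ℝ) * I) * (starRingEnd ℂ) (FF (((1 / 2 : ℝ) : ℂ) + t * I)) *
      sin (Real.pi * (((1 / 2 : ℝ) : ℂ) + t * I) / 2) =
    cos (Real.pi * (((1 / 2 : ℝ) : ℂ) + t * I) / 2) * FF (((1 / 2 : ℝ) : ℂ) + t * I) := by
  set s : ℂ := ((1 / 2 : ℝ) : ℂ) + t * I with hs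
  have hs1 : s ≠ 1 := line_ne_one (by norm_num) t
  have hs2 : ∀ n : ℕ, s ≠ -n := by
    intro n h
    have := congrArg re h
    simp [hs] at this
    linarith [Nat.cast_nonneg (α := ℝ) n]
  have h1 : (starRingEnd ℂ) (FF s) = Gamma (1 - s) * riemannZeta (1 - s) ^ 2 := by
    rw [FF, map_mul, map_pow, ← Gamma_conj, ← riemannZeta_conj, hs, conj_half]
  have h2 := riemannZeta_one_sub hs2 hs1
  have h3 := Gamma_mul_Gamma_one_sub s
  have h4 : sin (Real.pi * s) = 2 * sin (Real.pi * s / 2) * cos (Real.pi * s / 2) := by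
    rw [← sin_two_mul]; congr 1; ring
  have h5 : sin (Real.pi * s) ≠ 0 := by
    rw [hs, sin_pi_half]
    exact_mod_cast (Real.cosh_pos _).ne'
  have h6 : Gamma s * Gamma (1 - s) * (2 * sin (Real.pi * s / 2) * cos (Real.pi * s / 2)) =
      Real.pi := by
    rw [← h4, h3]; field_simp
  have h7 : cexp ((2 * aa * t : ℝ) * I) * ((2 * (Real.pi : ℂ)) ^ (-s)) ^ 2 * (2 * Real.pi) = 1 := by
    have e1 : (2 * (Real.pi : ℂ)) = cexp aa := by
      rw [← ofReal_exp, exp_aa]; push_cast; ring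
    have e2 : (2 * (Real.pi : ℂ)) ^ (-s) = cexp (aa * -s) := by
      rw [cpow_def_of_ne_zero (by rw [e1]; exact exp_ne_zero _)]
      congr 2
      rw [aa, ofReal_log (by positivity)]
      push_cast; rfl
    rw [e2, e1, sq, ← exp_add, ← exp_add, ← exp_add, ← exp_zero]
    congr 1
    rw [hs]
    push_cast
    ring
  rw [h1, h2, FF]
  linear_combination (2 * cexp ((2 * aa * t : ℝ) * I) * ((2 * (Real.pi : ℂ)) ^ (-s)) ^ 2 *
    Gamma s * cos (Real.pi * s / 2) * riemannZeta s ^ 2) * h6 +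
    (Gamma s * cos (Real.pi * s / 2) * riemannZeta s ^ 2) * h7

theorem norm_hh_sq (θ t : ℝ) : ‖hh θ t‖ ^ 2 * (Real.cosh (Real.pi * t) / 2) =
    ‖gg θ t‖ ^ 2 * Real.exp (-(Real.pi * t)) := by
  set x : ℂ := Real.pi * (((1 / 2 : ℝ) : ℂ) + t * I) / 2 with hx
  have h1 : hh θ t * sin x = gg θ t * (-I * cexp (x * I)) := by
    have h2 := FF_funeq t
    rw [← hx] at h2
    have h3 : (starRingEnd ℂ) (cexp (t * θ)) = cexp (t * θ) := by
      rw [← exp_conj]; simp
    rw [hh, exp_mul_I x, gg, map_mul, h3]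
    linear_combination (-I * cexp (t * θ)) * h2 +
      (FF (((1 / 2 : ℝ) : ℂ) + t * I) * cexp (t * θ) * sin x) * I_mul_I
  have h4 : ‖cexp (x * I)‖ ^ 2 = Real.exp (-(Real.pi * t)) := by
    rw [norm_exp, ← Real.exp_nat_mul]
    congr 1
    simp [hx]
    ring
  rw [← normSq_sin_quarter, ← hx, ← mul_pow, ← norm_mul, h1, norm_mul, norm_mul, norm_neg, norm_I,
    one_mul, mul_pow, h4]

theorem zeta_pow_four_le (t : ℝ) :
    ‖riemannZeta (1 / 2 + t * I)‖ ^ 4 ≤ 16 * Real.exp (4 * |t|) := by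
  have h1 := norm_zeta_half_le t
  have h2 : 1 + |t| ≤ Real.exp |t| := by linarith [Real.add_one_le_exp |t|]
  calc _ ≤ (2 * Real.exp |t|) ^ 4 := by gcongr; linarith
    _ = 16 * Real.exp (4 * |t|) := by
      rw [mul_pow, ← Real.exp_nat_mul]; norm_num

theorem exp_abs_le_cosh (x : ℝ) : Real.exp |x| ≤ 2 * Real.cosh x := by
  rw [← Real.cosh_abs, Real.cosh_eq]
  linarith [Real.exp_pos (-|x|)]

theorem norm_hh_sq_le {δ : ℝ} (hδ0 : 0 ≤ δ) (hδ : δ ≤ 1 / 10) (t : ℝ) :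
    ‖hh (Real.pi / 2 - δ) t‖ ^ 2 ≤ 128 * Real.pi * Real.exp (-2 * |t|) := by
  have h1 := norm_hh_sq (Real.pi / 2 - δ) t
  rw [norm_gg_sq] at h1
  set c := Real.cosh (Real.pi * t) with hc
  have hc0 : 0 < c := Real.cosh_pos _
  have h2 : Real.exp (Real.pi * |t|) ≤ 2 * c := by
    have := exp_abs_le_cosh (Real.pi * t)
    rwa [abs_mul, abs_of_pos Real.pi_pos] at this
  have h3 : ‖hh (Real.pi / 2 - δ) t‖ ^ 2 * (2 * c) ^ 2 =
      8 * Real.pi * ‖riemannZeta (1 / 2 + t * I)‖ ^ 4 * Real.exp (-(2 * δ * t)) := by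
    have e : Real.exp (-(2 * δ * t)) =
        Real.exp (2 * (Real.pi / 2 - δ) * t) * Real.exp (-(Real.pi * t)) := by
      rw [← Real.exp_add]; congr 1; ring
    rw [e]
    field_simp at h1 ⊢
    linarith
  have h4 : Real.exp (-(2 * δ * t)) ≤ Real.exp (1 / 5 * |t|) := by
    apply Real.exp_le_exp.mpr
    have := neg_abs_le t
    have := abs_nonneg t
    nlinarith
  have h5 : ‖hh (Real.pi / 2 - δ) t‖ ^ 2 * Real.exp (Real.pi * |t|) ^ 2 ≤
      8 * Real.pi * (16 * Real.exp (4 * |t|)) * Real.exp (1 / 5 * |t|) := by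
    calc _ ≤ ‖hh (Real.pi / 2 - δ) t‖ ^ 2 * (2 * c) ^ 2 := by gcongr
      _ ≤ _ := by
        rw [h3]
        have := zeta_pow_four_le t
        gcongr
  have h6 : Real.exp (4 * |t|) * Real.exp (1 / 5 * |t|) ≤
      Real.exp (-2 * |t|) * Real.exp (Real.pi * |t|) ^ 2 := by
    rw [← Real.exp_nat_mul, ← Real.exp_add, ← Real.exp_add]
    apply Real.exp_le_exp.mpr
    have := Real.pi_gt_d2
    have := abs_nonneg t
    push_cast
    nlinarith
  have h7 : 0 < Real.exp (Real.pi * |t|) ^ 2 := by positivity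
  have h8 : ‖hh (Real.pi / 2 - δ) t‖ ^ 2 * Real.exp (Real.pi * |t|) ^ 2 ≤
      128 * Real.pi * Real.exp (-2 * |t|) * Real.exp (Real.pi * |t|) ^ 2 := by
    refine le_trans h5 ?_
    have := mul_le_mul_of_nonneg_left h6 (by positivity : 0 ≤ 128 * Real.pi)
    linarith
  exact le_of_mul_le_mul_right h8 h7

theorem integral_FT_hh_le {δ : ℝ} (hδ0 : 0 < δ) (hδ : δ ≤ 1 / 10) :
    ∫ u, ‖FT (hh (Real.pi / 2 - δ)) u‖ ^ 2 ≤ (2 * Real.pi) ^ 2 * 64 := by
  have hθ0 : 0 ≤ Real.pi / 2 - δ := by linarith [Real.pi_gt_three]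
  have hθ : Real.pi / 2 - δ < Real.pi / 2 := by linarith
  rw [plancherel (continuous_hh _) (integrable_hh hθ0 hθ) (integrable_FT_hh hθ0 hθ)]
  have h1 : ∫ t, ‖hh (Real.pi / 2 - δ) t‖ ^ 2 ≤ ∫ t : ℝ, 128 * Real.pi * Real.exp (-2 * |t|) :=
    integral_mono_of_nonneg (Eventually.of_forall fun t => by positivity)
      ((integrable_exp_abs two_pos).const_mul _)
      (Eventually.of_forall (norm_hh_sq_le hδ0.le hδ))
  rw [integral_const_mul, integral_exp_abs two_pos] at h1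
  have := Real.pi_pos
  nlinarith

end Pool.Agent.MP_3d0d30_nt

end MrgPart2

-- ======== part 3: formerly Pool.Agent.MP_3d0d30_nt.DivisorSums
section MrgPart3

set_option autoImplicit false
open Finset

namespace Pool.Agent.MP_3d0d30_nt

/-- `log (1 + 1 / y)` -/
noncomputable def lam (y : ℝ) : ℝ := Real.log (1 + 1 / y)

theorem lam_pos {y : ℝ} (hy : 0 < y) : 0 < lam y :=
  Real.log_pos (by have : 0 < 1 / y := by positivity
                   linarith)

theorem lam_le {y : ℝ} (hy : 0 < y) : lam y ≤ 1 / y := by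
  have := Real.log_le_sub_one_of_pos (show 0 < 1 + 1 / y by positivity)
  unfold lam; linarith

theorem sum_Icc_one (f : ℕ → ℝ) (N : ℕ) : ∑ e ∈ Icc 1 N, f e = ∑ n ∈ range N, f (n + 1) := by
  induction N with
  | zero => simp
  | succ N ih => rw [sum_Icc_succ_top (by omega), sum_range_succ, ih]

theorem S1_le {y : ℝ} (hy : 0 < y) (N : ℕ) :
    ∑ e ∈ Icc 1 N, Real.exp (-(y * (e : ℕ))) / (e : ℕ) ≤ lam y := by
  have hx0 : 0 < Real.exp (-y) := Real.exp_pos _
  have hx1 : Real.exp (-y) < 1 := Real.exp_lt_one_iff.mpr (by linarith)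
  have h := Real.hasSum_pow_div_log_of_abs_lt_one (x := Real.exp (-y))
    (by rw [abs_of_pos hx0]; exact hx1)
  have h1 := sum_le_hasSum (range N) (fun n _ => by positivity) h
  rw [sum_Icc_one (fun e : ℕ => Real.exp (-(y * (e : ℕ))) / (e : ℕ))]
  have h2 : ∑ n ∈ range N, Real.exp (-(y * ((n + 1 : ℕ) : ℝ))) / ((n + 1 : ℕ) : ℝ) =
      ∑ n ∈ range N, Real.exp (-y) ^ (n + 1) / ((n : ℝ) + 1) := by
    refine sum_congr rfl fun n _ => ?_
    rw [← Real.exp_nat_mul]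
    push_cast
    congr 2
    ring
  rw [h2]
  refine le_trans h1 ?_
  rw [lam, ← Real.log_inv]
  apply Real.log_le_log (inv_pos.mpr (by linarith))
  have h3 : Real.exp (-y) ≤ 1 / (1 + y) := by
    rw [Real.exp_neg, one_div]
    exact inv_anti₀ (by linarith) (by linarith [Real.add_one_le_exp y])
  rw [inv_le_comm₀ (by linarith) (by positivity)]
  have h4 : (1 + 1 / y)⁻¹ = 1 - 1 / (1 + y) := by field_simp; ring
  linarith

theorem geo_le {y : ℝ} (hy : 0 < y) (N : ℕ) :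
    ∑ e ∈ Icc 1 N, Real.exp (-(y * (e : ℕ))) ≤ Real.exp (-(y / 2)) / y := by
  have hx0 : 0 < Real.exp (-y) := Real.exp_pos _
  have hx1 : Real.exp (-y) < 1 := Real.exp_lt_one_iff.mpr (by linarith)
  have h := (hasSum_geometric_of_lt_one hx0.le hx1).mul_left (Real.exp (-y))
  have h1 := sum_le_hasSum (range N) (fun n _ => by positivity) h
  rw [sum_Icc_one (fun e : ℕ => Real.exp (-(y * (e : ℕ))))]
  have h2 : ∑ n ∈ range N, Real.exp (-(y * ((n + 1 : ℕ) : ℝ))) =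
      ∑ n ∈ range N, Real.exp (-y) * Real.exp (-y) ^ n := by
    refine sum_congr rfl fun n _ => ?_
    rw [← Real.exp_nat_mul, ← Real.exp_add]
    push_cast
    congr 1
    ring
  rw [h2]
  refine le_trans h1 ?_
  have h3 : y / 2 ≤ Real.sinh (y / 2) := Real.self_le_sinh_iff.mpr (by linarith)
  rw [Real.sinh_eq] at h3
  set a := Real.exp (-(y / 2)) with ha
  have ha0 : 0 < a := Real.exp_pos _
  have e1 : Real.exp (-y) = a * a := by rw [ha, ← Real.exp_add]; congr 1; ring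
  have e2 : Real.exp (y / 2) * a = 1 := by rw [ha, ← Real.exp_add]; simp
  rw [e1] at hx1 ⊢
  rw [← div_eq_mul_inv, div_le_div_iff₀ (by linarith) hy]
  have h4 : y * a ≤ 1 - a * a := by nlinarith
  nlinarith

theorem lam_step {y : ℝ} (hy : 0 < y) {n : ℝ} (hn : 1 ≤ n) :
    lam (y * (n + 1)) / (n + 1) ≤ (lam (y * (n + 1)) + 1) * (lam (y * n) - lam (y * (n + 1))) := by
  have hn0 : 0 < n := by linarith
  set x := lam (y * (n + 1)) with hx
  have hx0 : 0 < x := lam_pos (by positivity)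
  have hx1 : x ≤ 1 / (y * (n + 1)) := lam_le (by positivity)
  have h1 : 1 / ((n + 1) * (y * n + 1)) ≤ lam (y * n) - x := by
    rw [hx, lam, lam, ← Real.log_div (by positivity) (by positivity)]
    refine le_trans (le_of_eq ?_) (Real.one_sub_inv_le_log_of_pos (by positivity))
    field_simp
    ring
  have h2 : x * (y * (n + 1)) ≤ 1 := by rwa [le_div_iff₀ (by positivity)] at hx1
  have h3 : x / (n + 1) ≤ (x + 1) * (1 / ((n + 1) * (y * n + 1))) := by
    rw [mul_one_div, div_le_div_iff₀ (by positivity) (by positivity)]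
    have : 0 ≤ x * y := by positivity
    nlinarith
  exact le_trans h3 (mul_le_mul_of_nonneg_left h1 (by linarith))

theorem rec_le {y α β γ : ℝ} (hy : 0 < y) (hα : 0 ≤ α) (hβ : 0 ≤ β) (hγ : 0 ≤ γ) (N : ℕ) :
    ∑ m ∈ Icc 1 N, (α * lam (y * (m : ℕ)) + β * lam (y * (m : ℕ)) ^ 2 +
      γ * lam (y * (m : ℕ)) ^ 3) / (m : ℕ) ≤
    2 * α * lam y + (α + 3 * β) / 2 * lam y ^ 2 + (β + 4 * γ) / 3 * lam y ^ 3 +
      γ / 4 * lam y ^ 4 := by
  set Q : ℝ → ℝ := fun x => α * x + (α + β) / 2 * x ^ 2 + (β + γ) / 3 * x ^ 3 + γ / 4 * x ^ 4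
    with hQ
  have key : ∀ M : ℕ, ∑ m ∈ Icc 1 (M + 1), (α * lam (y * (m : ℕ)) + β * lam (y * (m : ℕ)) ^ 2 +
      γ * lam (y * (m : ℕ)) ^ 3) / (m : ℕ) ≤
      (α * lam y + β * lam y ^ 2 + γ * lam y ^ 3) + Q (lam y) - Q (lam (y * ((M + 1 : ℕ) : ℝ))) := by
    intro M
    induction M with
    | zero => simp
    | succ M ih =>
      rw [sum_Icc_succ_top (by omega)]
      have h1 := lam_step hy (n := ((M + 1 : ℕ) : ℝ)) (by simp)
      have e : (((M + 1 + 1 : ℕ)) : ℝ) = ((M + 1 : ℕ) : ℝ) + 1 := by push_cast; ring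
      rw [e]
      set x := lam (y * (((M + 1 : ℕ) : ℝ) + 1)) with hx
      set z := lam (y * ((M + 1 : ℕ) : ℝ)) with hz
      have hx0 : 0 < x := lam_pos (by positivity)
      have hz0 : 0 < z := lam_pos (by positivity)
      have h2 : (α * x + β * x ^ 2 + γ * x ^ 3) / (((M + 1 : ℕ) : ℝ) + 1) ≤
          (α + β * x + γ * x ^ 2) * ((x + 1) * (z - x)) := by
        have : (α * x + β * x ^ 2 + γ * x ^ 3) / (((M + 1 : ℕ) : ℝ) + 1) =
            (α + β * x + γ * x ^ 2) * (x / (((M + 1 : ℕ) : ℝ) + 1)) := by ring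
        rw [this]
        exact mul_le_mul_of_nonneg_left h1 (by positivity)
      have h3 : Q z - Q x - (α + β * x + γ * x ^ 2) * ((x + 1) * (z - x)) =
          (z - x) ^ 2 * ((α + β) / 2 + (β + γ) * (z + 2 * x) / 3 +
            γ * (z ^ 2 + 2 * z * x + 3 * x ^ 2) / 4) := by
        simp only [hQ]; ring
      have h4 : 0 ≤ (z - x) ^ 2 * ((α + β) / 2 + (β + γ) * (z + 2 * x) / 3 +
            γ * (z ^ 2 + 2 * z * x + 3 * x ^ 2) / 4) := by positivity
      linarith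
  have hl := lam_pos hy
  rcases N with _ | M
  · simp only [zero_lt_one, Icc_eq_empty_of_lt, sum_empty]
    positivity
  · have h1 := key M
    have h2 : 0 ≤ Q (lam (y * ((M + 1 : ℕ) : ℝ))) := by
      have := lam_pos (y := y * ((M + 1 : ℕ) : ℝ)) (by positivity)
      simp only [hQ]; positivity
    have h3 : (α * lam y + β * lam y ^ 2 + γ * lam y ^ 3) + Q (lam y) =
        2 * α * lam y + (α + 3 * β) / 2 * lam y ^ 2 + (β + 4 * γ) / 3 * lam y ^ 3 +
          γ / 4 * lam y ^ 4 := by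
      simp only [hQ]; ring
    linarith

theorem cast_pos_of_mem {N a : ℕ} (h : a ∈ Icc 1 N) : (0 : ℝ) < a := by
  have := (mem_Icc.mp h).1
  exact_mod_cast this

theorem S2_le {y : ℝ} (hy : 0 < y) (N : ℕ) :
    ∑ a ∈ Icc 1 N, ∑ b ∈ Icc 1 N, Real.exp (-(y * ((a : ℝ) * b))) / ((a : ℝ) * b) ≤
      2 * lam y + 1 / 2 * lam y ^ 2 := by
  have h := rec_le hy zero_le_one le_rfl le_rfl N
  refine le_trans (sum_le_sum fun a ha => ?_) (le_trans h (le_of_eq (by ring)))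
  have ha0 := cast_pos_of_mem ha
  have h1 := S1_le (y := y * a) (by positivity) N
  rw [le_div_iff₀ ha0, sum_mul]
  refine le_trans (le_of_eq (sum_congr rfl fun b hb => ?_)) (le_trans h1 (le_of_eq (by ring)))
  have hb0 := cast_pos_of_mem hb
  rw [mul_assoc]
  field_simp

theorem S3_le {y : ℝ} (hy : 0 < y) (N : ℕ) :
    ∑ a ∈ Icc 1 N, ∑ b ∈ Icc 1 N, ∑ c ∈ Icc 1 N,
      Real.exp (-(y * ((a : ℝ) * (b * c)))) / ((a : ℝ) * (b * c)) ≤
      4 * lam y + 7 / 4 * lam y ^ 2 + 1 / 6 * lam y ^ 3 := by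
  have h := rec_le hy (α := 2) (β := 1 / 2) (by norm_num) (by norm_num) le_rfl N
  refine le_trans (sum_le_sum fun a ha => ?_) (le_trans h (le_of_eq (by ring)))
  have ha0 := cast_pos_of_mem ha
  have h1 := S2_le (y := y * a) (by positivity) N
  rw [le_div_iff₀ ha0, sum_mul]
  refine le_trans (le_of_eq (sum_congr rfl fun b hb => ?_)) (le_trans h1 (le_of_eq (by ring)))
  have hb0 := cast_pos_of_mem hb
  rw [sum_mul]
  refine sum_congr rfl fun c hc => ?_
  have hc0 := cast_pos_of_mem hc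
  rw [mul_assoc y]
  field_simp

theorem S4_le {y : ℝ} (hy : 0 < y) (N : ℕ) :
    ∑ a ∈ Icc 1 N, ∑ b ∈ Icc 1 N, ∑ c ∈ Icc 1 N, ∑ e ∈ Icc 1 N,
      Real.exp (-(y * ((a : ℝ) * (b * (c * e))))) / ((a : ℝ) * (b * (c * e))) ≤
      8 * lam y + 37 / 8 * lam y ^ 2 + 29 / 36 * lam y ^ 3 + 1 / 24 * lam y ^ 4 := by
  have h := rec_le hy (α := 4) (β := 7 / 4) (γ := 1 / 6) (by norm_num) (by norm_num)
    (by norm_num) N
  refine le_trans (sum_le_sum fun a ha => ?_) (le_trans h (le_of_eq (by ring)))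
  have ha0 := cast_pos_of_mem ha
  have h1 := S3_le (y := y * a) (by positivity) N
  rw [le_div_iff₀ ha0, sum_mul]
  refine le_trans (le_of_eq (sum_congr rfl fun b hb => ?_)) (le_trans h1 (le_of_eq (by ring)))
  have hb0 := cast_pos_of_mem hb
  rw [sum_mul]
  refine sum_congr rfl fun c hc => ?_
  have hc0 := cast_pos_of_mem hc
  rw [sum_mul]
  refine sum_congr rfl fun e he => ?_
  have he0 := cast_pos_of_mem he
  rw [mul_assoc y]
  field_simp

theorem sum_le_of_injOn {ι κ : Type*} [DecidableEq κ] (s : Finset ι) (t : Finset κ) (φ : ι → κ)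
    (f : ι → ℝ) (g : κ → ℝ) (hinj : Set.InjOn φ s) (hmaps : ∀ i ∈ s, φ i ∈ t)
    (hfg : ∀ i ∈ s, f i ≤ g (φ i)) (hg : ∀ k ∈ t, 0 ≤ g k) : ∑ i ∈ s, f i ≤ ∑ k ∈ t, g k := by
  calc ∑ i ∈ s, f i ≤ ∑ i ∈ s, g (φ i) := sum_le_sum hfg
    _ = ∑ k ∈ s.image φ, g k := (sum_image hinj).symm
    _ ≤ _ := sum_le_sum_of_subset_of_nonneg
        (fun k hk => by obtain ⟨i, hi, rfl⟩ := mem_image.mp hk; exact hmaps i hi)
        (fun k hk _ => hg k hk)

theorem sum_dd_le (w : ℕ → ℝ) (hw : ∀ n, 0 ≤ w n) (N : ℕ) :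
    ∑ n ∈ Icc 1 N, dd n * w n ≤ ∑ a ∈ Icc 1 N, ∑ b ∈ Icc 1 N, w (a * b) := by
  have h1 : ∑ n ∈ Icc 1 N, dd n * w n =
      ∑ p ∈ (Icc 1 N).sigma (fun n => n.divisors), w p.1 := by
    rw [sum_sigma]
    refine sum_congr rfl fun n _ => ?_
    simp [dd]
  rw [h1, ← sum_product' (Icc 1 N) (Icc 1 N) (fun a b => w (a * b))]
  refine sum_le_of_injOn _ _ (fun p => (p.2, p.1 / p.2)) _ (fun q : ℕ × ℕ => w (q.1 * q.2))
    ?_ ?_ ?_ (fun _ _ => hw _)
  · rintro ⟨n, x⟩ hp ⟨n', x'⟩ hp' h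
    simp only [coe_sigma, Set.mem_sigma_iff, mem_coe, Nat.mem_divisors] at hp hp'
    simp only [Prod.mk.injEq] at h
    obtain ⟨rfl, h2⟩ := h
    have : n = n' := by
      rw [← Nat.mul_div_cancel' hp.2.1, ← Nat.mul_div_cancel' hp'.2.1, h2]
    subst this; rfl
  · rintro ⟨n, x⟩ hp
    simp only [mem_sigma, mem_Icc, Nat.mem_divisors] at hp
    have hx : 0 < x := Nat.pos_of_dvd_of_pos hp.2.1 (by omega)
    have hxn : x ≤ n := Nat.le_of_dvd (by omega) hp.2.1
    simp only [mem_product, mem_Icc]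
    exact ⟨⟨hx, by omega⟩, Nat.div_pos hxn hx, le_trans (Nat.div_le_self _ _) hp.1.2⟩
  · rintro ⟨n, x⟩ hp
    simp only [mem_sigma, mem_Icc, Nat.mem_divisors] at hp
    simp only
    rw [Nat.mul_div_cancel' hp.2.1]

theorem sum_dd_sq_le (w : ℕ → ℝ) (hw : ∀ n, 0 ≤ w n) (N : ℕ) :
    ∑ n ∈ Icc 1 N, dd n ^ 2 * w n ≤
      ∑ a ∈ Icc 1 N, ∑ b ∈ Icc 1 N, ∑ c ∈ Icc 1 N, ∑ e ∈ Icc 1 N, w (a * (b * (c * e))) := by
  have h1 : ∑ n ∈ Icc 1 N, dd n ^ 2 * w n =
      ∑ p ∈ (Icc 1 N).sigma (fun n => n.divisors ×ˢ n.divisors), w p.1 := by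
    rw [sum_sigma]
    refine sum_congr rfl fun n _ => ?_
    simp [dd, sq]
  have h2 : ∑ a ∈ Icc 1 N, ∑ b ∈ Icc 1 N, ∑ c ∈ Icc 1 N, ∑ e ∈ Icc 1 N, w (a * (b * (c * e))) =
      ∑ q ∈ (Icc 1 N) ×ˢ (Icc 1 N) ×ˢ (Icc 1 N) ×ˢ (Icc 1 N),
        w (q.1 * (q.2.1 * (q.2.2.1 * q.2.2.2))) := by
    simp only [sum_product]
  rw [h1, h2]
  have key : ∀ n x y : ℕ, x ∣ n → y ∣ n → n ≠ 0 →
      Nat.gcd x y * (x / Nat.gcd x y * (y / Nat.gcd x y * (n / Nat.lcm x y))) = n := by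
    intro n x y hx hy hn
    have hl : Nat.lcm x y ∣ n := Nat.lcm_dvd hx hy
    have hg : 0 < Nat.gcd x y :=
      Nat.gcd_pos_of_pos_left _ (Nat.pos_of_dvd_of_pos hx (Nat.pos_of_ne_zero hn))
    have h3 : x * (y / Nat.gcd x y) = Nat.lcm x y := by
      rw [Nat.lcm, Nat.mul_div_assoc _ (Nat.gcd_dvd_right x y)]
    rw [← mul_assoc, Nat.mul_div_cancel' (Nat.gcd_dvd_left x y), ← mul_assoc, h3,
      Nat.mul_div_cancel' hl]
  refine sum_le_of_injOn _ _
    (fun p => (Nat.gcd p.2.1 p.2.2, p.2.1 / Nat.gcd p.2.1 p.2.2, p.2.2 / Nat.gcd p.2.1 p.2.2,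
      p.1 / Nat.lcm p.2.1 p.2.2)) _
    (fun q : ℕ × ℕ × ℕ × ℕ => w (q.1 * (q.2.1 * (q.2.2.1 * q.2.2.2)))) ?_ ?_ ?_ (fun _ _ => hw _)
  · rintro ⟨n, x, y⟩ hp ⟨n', x', y'⟩ hp' h
    simp only [coe_sigma, Set.mem_sigma_iff, mem_coe, mem_product, Nat.mem_divisors] at hp hp'
    simp only [Prod.mk.injEq] at h
    obtain ⟨h1, h2, h3, h4⟩ := h
    have e1 : x = x' := by
      rw [← Nat.mul_div_cancel' (Nat.gcd_dvd_left x y), h2, h1,
        Nat.mul_div_cancel' (Nat.gcd_dvd_left x' y')]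
    have e2 : y = y' := by
      rw [← Nat.mul_div_cancel' (Nat.gcd_dvd_right x y), h3, h1,
        Nat.mul_div_cancel' (Nat.gcd_dvd_right x' y')]
    have e3 : n = n' := by
      rw [← key n x y hp.2.1.1 hp.2.2.1 hp.2.1.2, h4, h3, h2, h1,
        key n' x' y' hp'.2.1.1 hp'.2.2.1 hp'.2.1.2]
    subst e1 e2 e3; rfl
  · rintro ⟨n, x, y⟩ hp
    simp only [mem_sigma, mem_Icc, mem_product, Nat.mem_divisors] at hp
    have hk := key n x y hp.2.1.1 hp.2.2.1 hp.2.1.2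
    have hn := hp.1
    simp only [mem_product, mem_Icc]
    generalize Nat.gcd x y = g at hk ⊢
    generalize x / g = a at hk ⊢
    generalize y / g = b at hk ⊢
    generalize n / Nat.lcm x y = c at hk ⊢
    have hpos : 0 < g * (a * (b * c)) := by omega
    have hle : ∀ z, z ∣ g * (a * (b * c)) → 1 ≤ z ∧ z ≤ N := fun z hz =>
      ⟨Nat.pos_of_dvd_of_pos hz hpos, le_trans (Nat.le_of_dvd hpos hz) (by omega)⟩
    exact ⟨hle g (Dvd.intro _ rfl), hle a ⟨g * (b * c), by ring⟩, hle b ⟨g * (a * c), by ring⟩,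
      hle c ⟨g * (a * b), by ring⟩⟩
  · rintro ⟨n, x, y⟩ hp
    simp only [mem_sigma, mem_Icc, mem_product, Nat.mem_divisors] at hp
    simp only
    rw [key n x y hp.2.1.1 hp.2.2.1 hp.2.1.2]

theorem D1_le {y : ℝ} (hy : 0 < y) (N : ℕ) :
    ∑ n ∈ Icc 1 N, dd n ^ 2 * (Real.exp (-(y * (n : ℕ))) / (n : ℕ)) ≤
      8 * lam y + 37 / 8 * lam y ^ 2 + 29 / 36 * lam y ^ 3 + 1 / 24 * lam y ^ 4 := by
  refine le_trans (sum_dd_sq_le (fun n => Real.exp (-(y * (n : ℕ))) / (n : ℕ))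
    (fun n => by positivity) N) (le_trans (le_of_eq ?_) (S4_le hy N))
  push_cast; rfl

theorem D0_le {y : ℝ} (hy : 0 < y) (N : ℕ) :
    ∑ n ∈ Icc 1 N, dd n ^ 2 * Real.exp (-(y * (n : ℕ))) ≤
      (4 * lam (y / 2) + 7 / 4 * lam (y / 2) ^ 2 + 1 / 6 * lam (y / 2) ^ 3) / y := by
  refine le_trans (sum_dd_sq_le (fun n => Real.exp (-(y * (n : ℕ))))
    (fun n => by positivity) N) ?_
  refine le_trans ?_ (div_le_div_of_nonneg_right (S3_le (y := y / 2) (by positivity) N) hy.le)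
  rw [sum_div]
  refine sum_le_sum fun a ha => ?_
  rw [sum_div]
  refine sum_le_sum fun b hb => ?_
  rw [sum_div]
  refine sum_le_sum fun c hc => ?_
  have ha0 := cast_pos_of_mem ha
  have hb0 := cast_pos_of_mem hb
  have hc0 := cast_pos_of_mem hc
  have h := geo_le (y := y * ((a : ℝ) * (b * c))) (by positivity) N
  refine le_trans (le_of_eq (sum_congr rfl fun e _ => ?_)) (le_trans h (le_of_eq ?_))
  · push_cast; congr 1; ring
  · rw [div_div, mul_comm _ y]; congr 2; ring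

theorem D2_le {y : ℝ} (hy : 0 < y) (N : ℕ) :
    ∑ n ∈ Icc 1 N, dd n * Real.exp (-(y * (n : ℕ))) ≤ lam (y / 2) / y := by
  refine le_trans (sum_dd_le (fun n => Real.exp (-(y * (n : ℕ))))
    (fun n => by positivity) N) ?_
  refine le_trans ?_ (div_le_div_of_nonneg_right (S1_le (y := y / 2) (by positivity) N) hy.le)
  rw [sum_div]
  refine sum_le_sum fun a ha => ?_
  have ha0 := cast_pos_of_mem ha
  have h := geo_le (y := y * (a : ℝ)) (by positivity) N
  refine le_trans (le_of_eq (sum_congr rfl fun e _ => ?_)) (le_trans h (le_of_eq ?_))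
  · push_cast; congr 1; ring
  · rw [div_div, mul_comm _ y]; congr 2; ring

end Pool.Agent.MP_3d0d30_nt

end MrgPart3

-- ======== part 4: formerly Pool.Agent.MP_3d0d30_nt.MeanSquare
section MrgPart4

set_option autoImplicit false
open MeasureTheory Finset Complex

namespace Pool.Agent.MP_3d0d30_nt

theorem kernel_re_le {a C : ℝ} (ha : 0 < a) (hC : 0 < C) (hC1 : C ≤ 1) (r : ℤ) :
    (-cexp (-((a : ℂ) + (r * C : ℝ) * I) * (2 * Real.pi : ℝ)) / -((a : ℂ) + (r * C : ℝ) * I)).re ≤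
      Real.exp (-(2 * Real.pi * a)) *
        (a / (a ^ 2 + (r * C) ^ 2) + 2 * Real.pi * (1 - C) / C) := by
  set β : ℂ := (a : ℂ) + (r * C : ℝ) * I with hβ
  set φ : ℝ := 2 * Real.pi * r * (1 - C) with hφ
  have hβ0 : β ≠ 0 := by
    intro h
    have := congrArg re h
    simp [hβ] at this
    linarith
  have h1 : cexp (-β * (2 * Real.pi : ℝ)) = (Real.exp (-(2 * Real.pi * a)) : ℝ) * cexp (I * φ) := by
    have h2 := exp_int_mul_two_pi_mul_I (-r)
    rw [ofReal_exp, ← exp_add, ← mul_one (cexp (_ + I * φ)), ← h2, ← exp_add]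
    congr 1
    rw [hβ, hφ]
    push_cast
    ring
  rw [neg_div_neg_eq, h1, mul_div_assoc, re_ofReal_mul]
  apply mul_le_mul_of_nonneg_left _ (Real.exp_pos _).le
  have h3 : cexp (I * φ) / β = β⁻¹ + (cexp (I * φ) - 1) / β := by field_simp; ring
  have h4 : β⁻¹.re = a / (a ^ 2 + (r * C) ^ 2) := by
    rw [inv_re, hβ, normSq_add_mul_I]; simp
  have h5 : ((cexp (I * φ) - 1) / β).re ≤ 2 * Real.pi * (1 - C) / C := by
    refine le_trans (re_le_norm _) ?_
    rw [norm_div, div_le_iff₀ (norm_pos_iff.mpr hβ0)]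
    have h6 : |r * C| ≤ ‖β‖ := by
      have := abs_im_le_norm β
      simpa [hβ] using this
    have h7 : 0 ≤ 2 * Real.pi * (1 - C) / C := by
      have : 0 ≤ 1 - C := by linarith
      positivity
    calc ‖cexp (I * φ) - 1‖ ≤ ‖φ‖ := Real.norm_exp_I_mul_ofReal_sub_one_le
      _ = 2 * Real.pi * (1 - C) / C * |r * C| := by
        rw [Real.norm_eq_abs, hφ, abs_mul, abs_mul, abs_mul (r : ℝ), abs_of_pos hC,
          abs_of_nonneg (by linarith : 0 ≤ 1 - C), abs_of_pos (by positivity : 0 < 2 * Real.pi)]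
        field_simp
      _ ≤ _ := mul_le_mul_of_nonneg_left h6 h7
  rw [h3, add_re, h4]
  linarith

theorem poisson_le {a u S C : ℝ} (ha : 0 < a) (hu : 0 < u) (hS : 0 < S) (hC : 0 < C) (r : ℤ)
    (h : |a - u| = |(r : ℝ)| * S) :
    a / (a ^ 2 + (r * C) ^ 2) ≤ u / (u ^ 2 + (r * C) ^ 2) + S / C ^ 2 := by
  rcases eq_or_ne r 0 with rfl | hr
  · simp only [Int.cast_zero, abs_zero, zero_mul, abs_eq_zero] at h
    rw [sub_eq_zero.mp h]
    have : 0 ≤ S / C ^ 2 := by positivity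
    linarith
  · have hr1 : (1 : ℝ) ≤ |(r : ℝ)| := by exact_mod_cast Int.one_le_abs hr
    have hr0 : (r : ℝ) ≠ 0 := by exact_mod_cast hr
    set B : ℝ := (r * C) ^ 2 with hB
    have hB0 : 0 < B := by positivity
    have h1 : a / (a ^ 2 + B) - u / (u ^ 2 + B) =
        (a - u) * (B - a * u) / ((a ^ 2 + B) * (u ^ 2 + B)) := by
      field_simp; ring
    have h2 : (a - u) * (B - a * u) ≤ |a - u| * (B + a * u) := by
      refine le_trans (le_abs_self _) ?_
      rw [abs_mul]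
      apply mul_le_mul_of_nonneg_left _ (abs_nonneg _)
      have : 0 < a * u := by positivity
      rw [abs_le]; constructor <;> linarith
    have h3 : B * (B + a * u) ≤ (a ^ 2 + B) * (u ^ 2 + B) := by
      have : 0 < a * u := by positivity
      nlinarith [mul_nonneg hB0.le (sq_nonneg (a - u)), sq_nonneg (a * u), mul_pos hB0 this]
    have h4 : (a - u) * (B - a * u) / ((a ^ 2 + B) * (u ^ 2 + B)) ≤ |a - u| / B := by
      rw [div_le_div_iff₀ (by positivity) hB0]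
      have := mul_le_mul_of_nonneg_left h3 (abs_nonneg (a - u))
      nlinarith
    have h5 : |a - u| / B ≤ S / C ^ 2 := by
      rw [h, hB, mul_pow, ← sq_abs (r : ℝ), div_le_div_iff₀ (by positivity) (by positivity)]
      have : 0 < S * C ^ 2 := by positivity
      nlinarith [mul_nonneg (mul_nonneg this.le (abs_nonneg (r : ℝ))) (sub_nonneg.mpr hr1)]
    linarith

theorem tele_le {u C : ℝ} (hu : 0 < u) (hC : 0 < C) (N : ℕ) :
    ∑ r ∈ Icc 1 N, u / (u ^ 2 + ((r : ℕ) * C) ^ 2) ≤ 2 / C := by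
  have key : ∀ N : ℕ, ∑ r ∈ Icc 1 N, u / (u ^ 2 + ((r : ℕ) * C) ^ 2) ≤
      2 / C * (1 - u / (u + N * C)) := by
    intro N
    induction N with
    | zero => simp [hu.ne']
    | succ N ih =>
      rw [sum_Icc_succ_top (by omega)]
      have h1 : u / (u ^ 2 + (((N + 1 : ℕ) : ℝ) * C) ^ 2) ≤
          2 * u / ((u + N * C) * (u + ((N + 1 : ℕ) : ℝ) * C)) := by
        rw [div_le_div_iff₀ (by positivity) (by positivity)]
        push_cast
        have h2 : (u + N * C) * (u + (N + 1) * C) ≤ 2 * (u ^ 2 + ((N + 1) * C) ^ 2) := by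
          have : 0 ≤ (N : ℝ) * C := by positivity
          nlinarith [sq_nonneg (u - (N + 1) * C), mul_pos hu hC]
        nlinarith
      have h3 : 2 / C * (1 - u / (u + ((N + 1 : ℕ) : ℝ) * C)) = 2 / C * (1 - u / (u + N * C)) +
          2 * u / ((u + N * C) * (u + ((N + 1 : ℕ) : ℝ) * C)) := by
        push_cast
        field_simp
        ring
      linarith
  refine le_trans (key N) (mul_le_of_le_one_right (by positivity) ?_)
  have : 0 ≤ u / (u + N * C) := by positivity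
  linarith

theorem Qsum_le {u C : ℝ} (hu : 0 < u) (hC : 0 < C) {N n : ℕ} (hn : n ∈ Icc 1 N) :
    ∑ m ∈ Icc 1 N, u / (u ^ 2 + (((m : ℝ) - n) * C) ^ 2) ≤ 1 / u + 4 / C := by
  have hn' := mem_Icc.mp hn
  have ht := tele_le hu hC N
  rw [← sum_filter_add_sum_filter_not (Icc 1 N) (fun m => m < n)]
  have h1 : ∑ m ∈ (Icc 1 N).filter (fun m => m < n), u / (u ^ 2 + (((m : ℝ) - n) * C) ^ 2) ≤
      ∑ r ∈ Icc 1 N, u / (u ^ 2 + ((r : ℕ) * C) ^ 2) := by
    refine sum_le_of_injOn _ _ (fun m => n - m) _ (fun r : ℕ => u / (u ^ 2 + ((r : ℕ) * C) ^ 2))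
      ?_ ?_ ?_ (fun _ _ => by positivity)
    · intro m hm m' hm' h
      simp only [coe_filter, mem_Icc, Set.mem_ofPred_eq] at hm hm' h
      omega
    · intro m hm
      simp only [mem_filter, mem_Icc] at hm ⊢
      omega
    · intro m hm
      simp only [mem_filter, mem_Icc] at hm
      apply le_of_eq
      rw [Nat.cast_sub hm.2.le]
      ring
  have h2 : ∑ m ∈ (Icc 1 N).filter (fun m => ¬ m < n), u / (u ^ 2 + (((m : ℝ) - n) * C) ^ 2) ≤
      ∑ r ∈ insert 0 (Icc 1 N), u / (u ^ 2 + ((r : ℕ) * C) ^ 2) := by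
    refine sum_le_of_injOn _ _ (fun m => m - n) _ (fun r : ℕ => u / (u ^ 2 + ((r : ℕ) * C) ^ 2))
      ?_ ?_ ?_ (fun _ _ => by positivity)
    · intro m hm m' hm' h
      simp only [coe_filter, mem_Icc, Set.mem_ofPred_eq] at hm hm' h
      omega
    · intro m hm
      simp only [mem_filter, mem_Icc, mem_insert] at hm ⊢
      omega
    · intro m hm
      simp only [mem_filter, mem_Icc, not_lt] at hm
      apply le_of_eq
      rw [Nat.cast_sub hm.2]
  rw [sum_insert (by simp)] at h2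
  have h3 : u / (u ^ 2 + (((0 : ℕ) : ℝ) * C) ^ 2) = 1 / u := by
    simp only [Nat.cast_zero, zero_mul]; field_simp; ring
  have h4 : 4 / C = 2 / C + 2 / C := by ring
  linarith

/-- Schur type bound for the quadratic form -/
theorem schur_le {S C ε : ℝ} (hS : 0 < S) (hC : 0 < C) (c : ℕ → ℝ) (hc : ∀ n, 0 ≤ c n) (N : ℕ) :
    ∑ m ∈ Icc 1 N, ∑ n ∈ Icc 1 N, c m * c n *
      (((m : ℝ) + n) * S / ((((m : ℝ) + n) * S) ^ 2 + (((m : ℝ) - n) * C) ^ 2) + ε) ≤
      ∑ n ∈ Icc 1 N, c n ^ 2 * (1 / (2 * n * S) + 4 / C) +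
        (S / C ^ 2 + ε) * (∑ n ∈ Icc 1 N, c n) ^ 2 := by
  set Q : ℕ → ℕ → ℝ := fun n m =>
    (2 * n * S) / ((2 * n * S) ^ 2 + (((m : ℝ) - n) * C) ^ 2) with hQ
  have h1 : ∀ m ∈ Icc 1 N, ∀ n ∈ Icc 1 N, c m * c n *
      (((m : ℝ) + n) * S / ((((m : ℝ) + n) * S) ^ 2 + (((m : ℝ) - n) * C) ^ 2) + ε) ≤
      (c n ^ 2 * Q n m / 2 + c m ^ 2 * Q m n / 2) + (S / C ^ 2 + ε) * (c m * c n) := by
    intro m hm n hn
    have hm0 := cast_pos_of_mem hm
    have hn0 := cast_pos_of_mem hn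
    set P := ((m : ℝ) + n) * S / ((((m : ℝ) + n) * S) ^ 2 + (((m : ℝ) - n) * C) ^ 2) with hP
    have h2 : P ≤ Q n m + S / C ^ 2 := by
      have := poisson_le (a := ((m : ℝ) + n) * S) (u := 2 * n * S) (by positivity) (by positivity)
        hS hC ((m : ℤ) - n) (by
          push_cast
          rw [show ((m : ℝ) + n) * S - 2 * n * S = ((m : ℝ) - n) * S by ring, abs_mul,
            abs_of_pos hS])
      push_cast at this
      exact this
    have h3 : P ≤ Q m n + S / C ^ 2 := by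
      have := poisson_le (a := ((m : ℝ) + n) * S) (u := 2 * m * S) (by positivity) (by positivity)
        hS hC ((n : ℤ) - m) (by
          push_cast
          rw [show ((m : ℝ) + n) * S - 2 * m * S = ((n : ℝ) - m) * S by ring, abs_mul,
            abs_of_pos hS])
      push_cast at this
      rw [hP, show (((m : ℝ) - n) * C) ^ 2 = (((n : ℝ) - m) * C) ^ 2 by ring]
      exact this
    have h4 : 0 ≤ Q n m := by simp only [hQ]; positivity
    have h5 : 0 ≤ Q m n := by simp only [hQ]; positivity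
    have h6 : 0 ≤ c m * c n := mul_nonneg (hc m) (hc n)
    have h7 : c m * c n * (P - S / C ^ 2) ≤ c n ^ 2 * Q n m / 2 + c m ^ 2 * Q m n / 2 := by
      rcases le_total (Q n m) (Q m n) with h | h
      · have h8 := mul_le_mul_of_nonneg_left (show P - S / C ^ 2 ≤ Q n m by linarith) h6
        nlinarith [mul_nonneg (sq_nonneg (c m - c n)) h4,
          mul_nonneg (sq_nonneg (c m)) (sub_nonneg.mpr h)]
      · have h8 := mul_le_mul_of_nonneg_left (show P - S / C ^ 2 ≤ Q m n by linarith) h6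
        nlinarith [mul_nonneg (sq_nonneg (c m - c n)) h5,
          mul_nonneg (sq_nonneg (c n)) (sub_nonneg.mpr h)]
    linarith
  refine le_trans (sum_le_sum fun m hm => sum_le_sum fun n hn => h1 m hm n hn) ?_
  simp only [sum_add_distrib]
  have h2 : ∑ m ∈ Icc 1 N, ∑ n ∈ Icc 1 N, c m ^ 2 * Q m n / 2 ≤
      (∑ n ∈ Icc 1 N, c n ^ 2 * (1 / (2 * n * S) + 4 / C)) / 2 := by
    rw [sum_div]
    refine sum_le_sum fun m hm => ?_
    have hm0 := cast_pos_of_mem hm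
    rw [← sum_div, ← mul_sum]
    gcongr
    exact Qsum_le (by positivity) hC hm
  have h3 : ∑ m ∈ Icc 1 N, ∑ n ∈ Icc 1 N, c n ^ 2 * Q n m / 2 =
      ∑ m ∈ Icc 1 N, ∑ n ∈ Icc 1 N, c m ^ 2 * Q m n / 2 := sum_comm
  have h4 : ∑ m ∈ Icc 1 N, ∑ n ∈ Icc 1 N, (S / C ^ 2 + ε) * (c m * c n) =
      (S / C ^ 2 + ε) * (∑ n ∈ Icc 1 N, c n) ^ 2 := by
    rw [sq (∑ n ∈ Icc 1 N, c n), sum_mul_sum, mul_sum]
    refine sum_congr rfl fun m _ => ?_
    rw [mul_sum]
  linarith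

/-- truncated divisor exponential sum along a ray -/
noncomputable def PsiN (α : ℂ) (N : ℕ) (x : ℝ) : ℂ :=
  ∑ n ∈ Icc 1 N, (dd n : ℂ) * cexp (-(n * (x * α)))

theorem normSq_PsiN (S C : ℝ) (N : ℕ) (x : ℝ) : ‖PsiN (S + C * I) N x‖ ^ 2 =
    ∑ m ∈ Icc 1 N, ∑ n ∈ Icc 1 N, dd m * dd n *
      (cexp (-(((((m : ℝ) + n) * S : ℝ) : ℂ) + ((((m : ℤ) - n : ℤ)) * C : ℝ) * I) * x)).re := by
  have h : ((‖PsiN (S + C * I) N x‖ ^ 2 : ℝ) : ℂ) = ∑ m ∈ Icc 1 N, ∑ n ∈ Icc 1 N,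
      ((dd m * dd n : ℝ) : ℂ) *
      cexp (-(((((m : ℝ) + n) * S : ℝ) : ℂ) + ((((m : ℤ) - n : ℤ)) * C : ℝ) * I) * x) := by
    rw [← normSq_eq_norm_sq, ← mul_conj, PsiN, map_sum, sum_mul_sum]
    refine sum_congr rfl fun m _ => sum_congr rfl fun n _ => ?_
    rw [map_mul, conj_ofReal, ← exp_conj, mul_mul_mul_comm, ← exp_add]
    simp only [map_neg, map_mul, map_add, conj_ofReal, conj_I, map_natCast]
    push_cast
    congr 2
    ring
  have h2 := congrArg re h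
  rw [ofReal_re, re_sum] at h2
  rw [h2]
  refine sum_congr rfl fun m _ => ?_
  rw [re_sum]
  refine sum_congr rfl fun n _ => ?_
  rw [re_ofReal_mul]

theorem re_neg_lt {S C : ℝ} (hS : 0 < S) {N m n : ℕ} (hm : m ∈ Icc 1 N) (hn : n ∈ Icc 1 N) :
    (-(((((m : ℝ) + n) * S : ℝ) : ℂ) + ((((m : ℤ) - n : ℤ)) * C : ℝ) * I)).re < 0 := by
  have hm0 := cast_pos_of_mem hm
  have hn0 := cast_pos_of_mem hn
  have : 0 < ((m : ℝ) + n) * S := by positivity
  rw [neg_re, add_re, ofReal_re, re_ofReal_mul, I_re]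
  linarith

theorem integrable_term {S : ℝ} (C : ℝ) (hS : 0 < S) {N m n : ℕ} (hm : m ∈ Icc 1 N)
    (hn : n ∈ Icc 1 N) (A : ℝ) : Integrable (fun x : ℝ => dd m * dd n *
      (cexp (-(((((m : ℝ) + n) * S : ℝ) : ℂ) + ((((m : ℤ) - n : ℤ)) * C : ℝ) * I) * x)).re)
      (volume.restrict (Set.Ioi A)) :=
  ((integrableOn_exp_mul_complex_Ioi (re_neg_lt hS hm hn) A).re).const_mul _

theorem integrableOn_PsiN {S C : ℝ} (hS : 0 < S) (N : ℕ) (A : ℝ) :
    IntegrableOn (fun x => ‖PsiN (S + C * I) N x‖ ^ 2) (Set.Ioi A) := by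
  simp_rw [normSq_PsiN]
  refine integrable_finsetSum _ fun m hm => integrable_finsetSum _ fun n hn => ?_
  exact integrable_term C hS hm hn A

/-- the bound for the mean square -/
noncomputable def JJ (S C : ℝ) : ℝ :=
  (8 * lam (4 * Real.pi * S) + 37 / 8 * lam (4 * Real.pi * S) ^ 2 +
    29 / 36 * lam (4 * Real.pi * S) ^ 3 + 1 / 24 * lam (4 * Real.pi * S) ^ 4) / (2 * S) +
  4 / C * ((4 * lam (2 * Real.pi * S) + 7 / 4 * lam (2 * Real.pi * S) ^ 2 +
    1 / 6 * lam (2 * Real.pi * S) ^ 3) / (4 * Real.pi * S)) +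
  (S / C ^ 2 + 2 * Real.pi * (1 - C) / C) * (lam (Real.pi * S) / (2 * Real.pi * S)) ^ 2

theorem integral_PsiN_le {S C : ℝ} (hS : 0 < S) (hC : 0 < C) (hC1 : C ≤ 1) (N : ℕ) :
    ∫ x in Set.Ioi (2 * Real.pi), ‖PsiN (S + C * I) N x‖ ^ 2 ≤ JJ S C := by
  have hpi := Real.pi_pos
  simp_rw [normSq_PsiN]
  rw [integral_finsetSum _ fun m hm => integrable_finsetSum _ fun n hn =>
    integrable_term C hS hm hn _]
  set c : ℕ → ℝ := fun n => dd n * Real.exp (-(2 * Real.pi * S * n)) with hc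
  have hc0 : ∀ n, 0 ≤ c n := fun n => mul_nonneg (dd_nonneg n) (Real.exp_pos _).le
  have hε : 0 ≤ 2 * Real.pi * (1 - C) / C := by
    have : 0 ≤ 1 - C := by linarith
    positivity
  refine le_trans (sum_le_sum fun m hm => ?_)
    (le_trans (schur_le (ε := 2 * Real.pi * (1 - C) / C) hS hC c hc0 N) ?_)
  · rw [integral_finsetSum _ fun n hn => integrable_term C hS hm hn _]
    refine sum_le_sum fun n hn => ?_
    have hm0 := cast_pos_of_mem hm
    have hn0 := cast_pos_of_mem hn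
    have h1 := integral_re (integrableOn_exp_mul_complex_Ioi (re_neg_lt (C := C) hS hm hn)
      (2 * Real.pi))
    simp only [RCLike.re_to_complex] at h1
    rw [integral_const_mul, h1, integral_exp_mul_complex_Ioi (re_neg_lt hS hm hn)]
    have h2 := kernel_re_le (a := ((m : ℝ) + n) * S) (by positivity) hC hC1 ((m : ℤ) - n)
    refine le_trans (mul_le_mul_of_nonneg_left h2 (mul_nonneg (dd_nonneg m) (dd_nonneg n)))
      (le_of_eq ?_)
    have h3 : Real.exp (-(2 * Real.pi * (((m : ℝ) + n) * S))) =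
        Real.exp (-(2 * Real.pi * S * m)) * Real.exp (-(2 * Real.pi * S * n)) := by
      rw [← Real.exp_add]; congr 1; ring
    rw [h3]
    simp only [hc]
    push_cast
    ring
  · have h1 := D1_le (y := 4 * Real.pi * S) (by positivity) N
    have h2 := D0_le (y := 4 * Real.pi * S) (by positivity) N
    have h3 := D2_le (y := 2 * Real.pi * S) (by positivity) N
    rw [show 4 * Real.pi * S / 2 = 2 * Real.pi * S by ring] at h2
    rw [show 2 * Real.pi * S / 2 = Real.pi * S by ring] at h3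
    have h4 : ∑ n ∈ Icc 1 N, c n ^ 2 * (1 / (2 * n * S) + 4 / C) =
        (∑ n ∈ Icc 1 N, dd n ^ 2 * (Real.exp (-(4 * Real.pi * S * (n : ℕ))) / (n : ℕ))) / (2 * S) +
        4 / C * ∑ n ∈ Icc 1 N, dd n ^ 2 * Real.exp (-(4 * Real.pi * S * (n : ℕ))) := by
      rw [sum_div, mul_sum, ← sum_add_distrib]
      refine sum_congr rfl fun n hn => ?_
      have hn0 := cast_pos_of_mem hn
      have e : Real.exp (-(2 * Real.pi * S * n)) ^ 2 = Real.exp (-(4 * Real.pi * S * n)) := by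
        rw [← Real.exp_nat_mul]; congr 1; push_cast; ring
      simp only [hc]
      rw [mul_pow, e]
      field_simp
    rw [h4, JJ]
    have h5 : 0 ≤ ∑ n ∈ Icc 1 N, c n := sum_nonneg fun n _ => hc0 n
    gcongr

end Pool.Agent.MP_3d0d30_nt

end MrgPart4

-- ======== part 5: formerly Pool.Agent.MP_3d0d30_nt.Laplace
section MrgPart5

set_option autoImplicit false
open MeasureTheory Filter Topology Set Complex

namespace Pool.Agent.MP_3d0d30_nt

theorem norm_add_sq_le (a b : ℂ) : ‖a + b‖ ^ 2 ≤ 51 / 50 * ‖a‖ ^ 2 + 51 * ‖b‖ ^ 2 := by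
  have h1 : ‖a + b‖ ^ 2 ≤ (‖a‖ + ‖b‖) ^ 2 := by gcongr; exact norm_add_le _ _
  nlinarith [sq_nonneg (‖a‖ - 50 * ‖b‖)]

theorem aa_pos : 0 < aa := Real.log_pos (by linarith [Real.pi_gt_three])

theorem exp_neg_aa_half : Real.exp (-(1 / 2) * aa) ≤ 2 / 5 := by
  have h1 : Real.exp (-(1 / 2) * aa) ^ 2 * (2 * Real.pi) = 1 := by
    rw [← exp_aa, ← Real.exp_nat_mul, ← Real.exp_add, Real.exp_eq_one_iff]
    push_cast; ring
  have h2 := Real.exp_pos (-(1 / 2) * aa)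
  have h3 := Real.pi_gt_d2
  by_contra h
  push Not at h
  have h4 : (2 / 5 : ℝ) ^ 2 < Real.exp (-(1 / 2) * aa) ^ 2 := by gcongr
  nlinarith

theorem cexp_theta (δ : ℝ) :
    cexp (((Real.pi / 2 - δ : ℝ) : ℂ) * I) = (Real.sin δ : ℝ) + (Real.cos δ : ℝ) * I := by
  rw [exp_mul_I, ← ofReal_cos, ← ofReal_sin, Real.cos_pi_div_two_sub, Real.sin_pi_div_two_sub]

theorem tendsto_PsiN {δ : ℝ} (hδ0 : 0 < δ) (hδ : δ ≤ 1 / 10) (u : ℝ) :
    Tendsto (fun N => 2 * Real.pi * PsiN ((Real.sin δ : ℝ) + (Real.cos δ : ℝ) * I) N (Real.exp u))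
      atTop (𝓝 (∫ t : ℝ, ff (u + (Real.pi / 2 - δ : ℝ) * I) (((2 : ℝ) : ℂ) + t * I))) := by
  have hθ0 : 0 ≤ Real.pi / 2 - δ := by linarith [Real.pi_gt_three]
  have hθ : Real.pi / 2 - δ < Real.pi / 2 := by linarith
  have h := (hasSum_right hθ0 hθ u).tendsto_sum_nat.comp (tendsto_add_atTop_nat 1)
  refine h.congr fun N => ?_
  simp only [Function.comp]
  rw [exp_add, cexp_theta, ← ofReal_exp, PsiN, Finset.mul_sum]
  induction N with
  | zero => simp [dd]
  | succ N ih => rw [Finset.sum_range_succ, ih, Finset.sum_Icc_succ_top (by omega)]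

theorem right_le {δ : ℝ} (hδ0 : 0 < δ) (hδ : δ ≤ 1 / 10) :
    ∫ u in Ioi aa, ‖FT (gg (Real.pi / 2 - δ)) u‖ ^ 2 ≤
      51 / 50 * (2 * Real.pi) ^ 2 * JJ (Real.sin δ) (Real.cos δ) + 65280 := by
  have hθ0 : 0 ≤ Real.pi / 2 - δ := by linarith [Real.pi_gt_three]
  have hθ : Real.pi / 2 - δ < Real.pi / 2 := by linarith
  have hS : 0 < Real.sin δ := Real.sin_pos_of_pos_of_lt_pi hδ0 (by linarith [Real.pi_gt_three])
  have hC : 0 < Real.cos δ :=
    Real.cos_pos_of_mem_Ioo ⟨by linarith [Real.pi_gt_three], by linarith [Real.pi_gt_three]⟩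
  set α : ℂ := (Real.sin δ : ℝ) + (Real.cos δ : ℝ) * I with hα
  have hi1 : ∀ N, IntegrableOn (fun u => Real.exp u • ‖PsiN α N (Real.exp u)‖ ^ 2) (Ioi aa) :=
    fun N => (integrableOn_comp_exp_Ioi (fun x => ‖PsiN α N x‖ ^ 2) aa).mpr
      (integrableOn_PsiN hS N _)
  have hi2 : IntegrableOn (fun u => Real.exp (-(1 / 2) * u)) (Ioi aa) :=
    integrableOn_exp_mul_Ioi (by norm_num) aa
  refine fatou_real (μ := volume.restrict (Ioi aa))
    (f := fun N u => 51 / 50 * (2 * Real.pi) ^ 2 * (Real.exp u • ‖PsiN α N (Real.exp u)‖ ^ 2) +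
      81600 * Real.exp (-(1 / 2) * u))
    (l := fun u => 51 / 50 * (Real.exp u *
      ‖∫ t : ℝ, ff (u + (Real.pi / 2 - δ : ℝ) * I) (((2 : ℝ) : ℂ) + t * I)‖ ^ 2) +
      81600 * Real.exp (-(1 / 2) * u))
    (fun N => ((hi1 N).const_mul _).add (hi2.const_mul _))
    (fun N u => by simp only [smul_eq_mul]; positivity) ?_
    (integrable_sq_FT (integrable_FT_gg hθ0 hθ)).integrableOn (fun u => by positivity) ?_
  · intro N
    rw [integral_add ((hi1 N).const_mul _) (hi2.const_mul _), integral_const_mul,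
      integral_const_mul, integral_comp_exp_Ioi (fun x => ‖PsiN α N x‖ ^ 2), exp_aa,
      integral_exp_mul_Ioi (by norm_num)]
    have h1 := integral_PsiN_le hS hC (Real.cos_le_one δ) N
    have h2 := exp_neg_aa_half
    have h3 := mul_le_mul_of_nonneg_left h1 (by positivity : 0 ≤ 51 / 50 * (2 * Real.pi) ^ 2)
    have h4 : -Real.exp (-(1 / 2) * aa) / -(1 / 2) = 2 * Real.exp (-(1 / 2) * aa) := by ring
    rw [h4]
    linarith
  · filter_upwards [ae_restrict_mem measurableSet_Ioi] with u hu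
    have hu0 : 0 ≤ u := le_trans aa_pos.le (le_of_lt hu)
    constructor
    · have h1 := (((tendsto_PsiN hδ0 hδ u).norm.pow 2).const_mul (Real.exp u)).const_mul (51 / 50)
      refine (h1.add_const (81600 * Real.exp (-(1 / 2) * u))).congr fun N => ?_
      rw [norm_mul, norm_mul, norm_real, Real.norm_of_nonneg Real.pi_pos.le, smul_eq_mul]
      simp only [norm_ofNat]
      ring
    · rw [FT_gg, norm_mul, norm_cexp_half, mul_pow, ← Real.exp_nat_mul]
      set L := ∫ t : ℝ, ff (u + (Real.pi / 2 - δ : ℝ) * I) (((1 / 2 : ℝ) : ℂ) + t * I) with hL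
      set R := ∫ t : ℝ, ff (u + (Real.pi / 2 - δ : ℝ) * I) (((2 : ℝ) : ℂ) + t * I) with hR
      have h1 : ‖L - R‖ ≤ 40 * Real.exp (-(3 / 4) * u) := norm_cross_le hθ0 hθ hu0
      have h2 := norm_add_sq_le R (L - R)
      rw [add_sub_cancel] at h2
      have h3 : ‖L - R‖ ^ 2 ≤ (40 * Real.exp (-(3 / 4) * u)) ^ 2 := by gcongr
      have h4 : Real.exp u * Real.exp (-(3 / 4) * u) ^ 2 = Real.exp (-(1 / 2) * u) := by
        rw [← Real.exp_nat_mul, ← Real.exp_add]; congr 1; push_cast; ring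
      have h5 : ((2 : ℕ) : ℝ) * (u / 2) = u := by push_cast; ring
      rw [h5, ← h4]
      have h6 := mul_le_mul_of_nonneg_left (le_trans h2 (add_le_add le_rfl
        (mul_le_mul_of_nonneg_left h3 (by norm_num)))) (Real.exp_pos u).le
      linarith

theorem reflect_integral (f : ℝ → ℝ) (a : ℝ) :
    ∫ u in Iic a, f (2 * a - u) = ∫ u in Ioi a, f u := by
  rw [← integral_Ici_eq_integral_Ioi, ← integral_indicator measurableSet_Iic,
    ← integral_indicator measurableSet_Ici, ← integral_sub_left_eq_self (indicator (Ici a) f) _ (2 * a)]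
  congr 1
  ext u
  by_cases h : u ≤ a
  · rw [indicator_of_mem (show u ∈ Iic a from h),
      indicator_of_mem (show 2 * a - u ∈ Ici a by simp only [mem_Ici]; linarith)]
  · rw [indicator_of_notMem (show u ∉ Iic a from h),
      indicator_of_notMem (show 2 * a - u ∉ Ici a by simp only [mem_Ici]; linarith)]

theorem left_le {δ : ℝ} (hδ0 : 0 < δ) (hδ : δ ≤ 1 / 10) :
    ∫ u in Iic aa, ‖FT (gg (Real.pi / 2 - δ)) u‖ ^ 2 ≤
      51 / 50 * (∫ u in Ioi aa, ‖FT (gg (Real.pi / 2 - δ)) u‖ ^ 2) +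
        51 * ((2 * Real.pi) ^ 2 * 64) := by
  have hθ0 : 0 ≤ Real.pi / 2 - δ := by linarith [Real.pi_gt_three]
  have hθ : Real.pi / 2 - δ < Real.pi / 2 := by linarith
  have i1 := integrable_sq_FT (integrable_FT_gg hθ0 hθ)
  have i2 := integrable_sq_FT (integrable_FT_hh hθ0 hθ)
  have i3 : Integrable (fun u => ‖FT (gg (Real.pi / 2 - δ)) (2 * aa - u)‖ ^ 2) :=
    i1.comp_sub_left _
  have h1 : ∫ u in Iic aa, ‖FT (gg (Real.pi / 2 - δ)) u‖ ^ 2 ≤
      ∫ u in Iic aa, (51 / 50 * ‖FT (gg (Real.pi / 2 - δ)) (2 * aa - u)‖ ^ 2 +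
        51 * ‖FT (hh (Real.pi / 2 - δ)) u‖ ^ 2) := by
    refine integral_mono i1.integrableOn
      ((i3.const_mul _).add (i2.const_mul _)).integrableOn fun u => ?_
    have h2 := norm_add_sq_le (I * (starRingEnd ℂ) (FT (gg (Real.pi / 2 - δ)) (2 * aa - u)))
      (FT (hh (Real.pi / 2 - δ)) u)
    rw [norm_mul, norm_I, one_mul, RCLike.norm_conj] at h2
    refine le_trans (le_of_eq ?_) h2
    rw [FT_hh hθ0 hθ, add_sub_cancel]
  rw [integral_add (i3.const_mul _).integrableOn (i2.const_mul _).integrableOn,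
    integral_const_mul, integral_const_mul,
    reflect_integral (fun u => ‖FT (gg (Real.pi / 2 - δ)) u‖ ^ 2)] at h1
  have h3 : ∫ u in Iic aa, ‖FT (hh (Real.pi / 2 - δ)) u‖ ^ 2 ≤
      ∫ u, ‖FT (hh (Real.pi / 2 - δ)) u‖ ^ 2 :=
    setIntegral_le_integral i2 (Eventually.of_forall fun u => by positivity)
  have h4 := integral_FT_hh_le hδ0 hδ
  linarith

theorem integrable_gg_sq {θ : ℝ} (hθ0 : 0 ≤ θ) (hθ : θ < Real.pi / 2) :
    Integrable (fun t => ‖gg θ t‖ ^ 2) := by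
  refine integrable_sq_of_bdd (M := ∫ u, ‖FT (gg θ) u‖) (integrable_gg hθ0 hθ) fun t => ?_
  have h1 := FT_inv (continuous_gg θ) (integrable_gg hθ0 hθ) (integrable_FT_gg hθ0 hθ) t
  have h2 : ‖∫ u : ℝ, FT (gg θ) u * cexp ((t * u : ℝ) * I)‖ ≤ ∫ u, ‖FT (gg θ) u‖ := by
    refine le_trans (norm_integral_le_integral_norm _) (le_of_eq ?_)
    congr 1
    ext u
    rw [norm_mul, norm_exp_ofReal_mul_I, mul_one]
  rw [h1, norm_mul, norm_mul, norm_real, Real.norm_of_nonneg Real.pi_pos.le] at h2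
  simp only [norm_ofNat] at h2
  nlinarith [Real.pi_gt_three, norm_nonneg (gg θ t)]

theorem integral_gg_sq_le {δ : ℝ} (hδ0 : 0 < δ) (hδ : δ ≤ 1 / 10) :
    (∫ t, ‖gg (Real.pi / 2 - δ) t‖ ^ 2) / (2 * Real.pi) ≤
      5151 / 2500 * JJ (Real.sin δ) (Real.cos δ) + 6610 := by
  have hθ0 : 0 ≤ Real.pi / 2 - δ := by linarith [Real.pi_gt_three]
  have hθ : Real.pi / 2 - δ < Real.pi / 2 := by linarith
  have h1 := plancherel (continuous_gg _) (integrable_gg hθ0 hθ) (integrable_FT_gg hθ0 hθ)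
  have i1 := integrable_sq_FT (integrable_FT_gg hθ0 hθ)
  rw [← intervalIntegral.integral_Iic_add_Ioi (b := aa) i1.integrableOn i1.integrableOn] at h1
  have h2 := right_le hδ0 hδ
  have h3 := left_le hδ0 hδ
  have hpi := Real.pi_gt_d2
  have h4 : (39.4 : ℝ) ≤ (2 * Real.pi) ^ 2 := by nlinarith
  rw [div_le_iff₀ (by positivity)]
  have h5 : 0 < 2 * Real.pi := by positivity
  apply le_of_mul_le_mul_left _ h5
  rw [← h1]
  nlinarith

theorem zeta_four_le {δ T t : ℝ} (hδ0 : 0 < δ) (ht : t ∈ Icc 0 T) :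
    ‖riemannZeta (1 / 2 + t * I)‖ ^ 4 ≤ Real.exp (2 * δ * T) *
      (‖gg (Real.pi / 2 - δ) t‖ ^ 2 / (2 * Real.pi) + 16 * Real.exp (-2 * |t|)) := by
  set Z := ‖riemannZeta (1 / 2 + t * I)‖ ^ 4 with hZ
  have hZ0 : 0 ≤ Z := by positivity
  have hZ1 : Z ≤ 16 * Real.exp (4 * |t|) := zeta_pow_four_le t
  rw [norm_gg_sq, ← hZ, abs_of_nonneg ht.1] at *
  set E := Real.exp (Real.pi * t) with hE
  set D := Real.exp (-(2 * δ * t)) with hD
  have hE0 : 0 < E := Real.exp_pos _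
  have hD0 : 0 < D := Real.exp_pos _
  have hD1 : D ≤ 1 := Real.exp_le_one_iff.mpr (by nlinarith [ht.1])
  have e1 : Real.cosh (Real.pi * t) = (E + E⁻¹) / 2 := by rw [Real.cosh_eq, Real.exp_neg]
  have e2 : Real.exp (2 * (Real.pi / 2 - δ) * t) = E * D := by
    rw [hE, hD, ← Real.exp_add]; congr 1; ring
  have e3 : Real.pi / Real.cosh (Real.pi * t) * Z * Real.exp (2 * (Real.pi / 2 - δ) * t) /
      (2 * Real.pi) = Z * D - Z * D / (E ^ 2 + 1) := by
    rw [e1, e2]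
    have := Real.pi_pos
    field_simp
    ring
  have h1 : Z * D / (E ^ 2 + 1) ≤ 16 * Real.exp (-2 * t) := by
    rw [div_le_iff₀ (by positivity)]
    have h2 : Real.exp (4 * t) ≤ Real.exp (-2 * t) * E ^ 2 := by
      rw [hE, ← Real.exp_nat_mul, ← Real.exp_add]
      apply Real.exp_le_exp.mpr
      push_cast
      nlinarith [Real.pi_gt_three, ht.1]
    have h3 : Z * D ≤ Z := mul_le_of_le_one_right hZ0 hD1
    have h4 := Real.exp_pos (-2 * t)
    nlinarith
  have h2 : 1 ≤ Real.exp (2 * δ * T) * D := by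
    rw [hD, ← Real.exp_add]
    apply Real.one_le_exp
    nlinarith [ht.2]
  rw [e3]
  have h3 := Real.exp_pos (2 * δ * T)
  nlinarith

theorem continuous_zeta_half : Continuous (fun t : ℝ => riemannZeta (1 / 2 + t * I)) := by
  rw [continuous_iff_continuousAt]
  intro t
  refine ContinuousAt.comp (f := fun t : ℝ => (1 / 2 : ℂ) + t * I)
    (differentiableAt_riemannZeta ?_).continuousAt (by fun_prop)
  have := line_ne_one (σ := 1 / 2) (by norm_num) t
  simpa using this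

theorem moment_le {δ T : ℝ} (hδ0 : 0 < δ) (hδ : δ ≤ 1 / 10) (hT : 0 ≤ T) :
    ∫ t in (0 : ℝ)..T, ‖riemannZeta (1 / 2 + t * I)‖ ^ 4 ≤
      Real.exp (2 * δ * T) * (5151 / 2500 * JJ (Real.sin δ) (Real.cos δ) + 6626) := by
  have hθ0 : 0 ≤ Real.pi / 2 - δ := by linarith [Real.pi_gt_three]
  have hθ : Real.pi / 2 - δ < Real.pi / 2 := by linarith
  have i1 := (integrable_gg_sq hθ0 hθ).div_const (2 * Real.pi)
  have i2 := (integrable_exp_abs two_pos).const_mul 16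
  have i3 := (i1.add i2).const_mul (Real.exp (2 * δ * T))
  have h1 : ∫ t in (0 : ℝ)..T, ‖riemannZeta (1 / 2 + t * I)‖ ^ 4 ≤
      ∫ t in (0 : ℝ)..T, Real.exp (2 * δ * T) *
        (‖gg (Real.pi / 2 - δ) t‖ ^ 2 / (2 * Real.pi) + 16 * Real.exp (-2 * |t|)) :=
    intervalIntegral.integral_mono_on hT
      ((continuous_zeta_half.norm.pow 4).intervalIntegrable _ _) i3.intervalIntegrable
      fun t ht => zeta_four_le hδ0 ht
  refine le_trans h1 ?_
  rw [intervalIntegral.integral_of_le hT]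
  refine le_trans (setIntegral_le_integral i3
    (Eventually.of_forall fun t => by simp only [Pi.zero_apply]; positivity)) ?_
  rw [integral_const_mul, integral_add i1 i2, integral_const_mul, integral_exp_abs two_pos,
    integral_div]
  have := integral_gg_sq_le hδ0 hδ
  exact mul_le_mul_of_nonneg_left (by linarith) (Real.exp_pos _).le

end Pool.Agent.MP_3d0d30_nt

end MrgPart5

-- ======== part 6: formerly Pool.Agent.MP_3d0d30_nt.Numeric
section MrgPart6

set_option autoImplicit false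
open MeasureTheory Filter Topology Set Complex

namespace Pool.Agent.MP_3d0d30_nt

theorem exp_fifth_le : Real.exp (1 / 5) ≤ 5 / 4 := by
  have := Real.one_sub_le_exp_neg (1 / 5)
  rw [Real.exp_neg, le_inv_comm₀ (by norm_num) (Real.exp_pos _)] at this
  linarith

theorem exp_22_le : Real.exp 2.2 ≤ 9.24 := by
  have h : Real.exp 2.2 = Real.exp 1 * Real.exp 1 * Real.exp (1 / 5) := by
    rw [← Real.exp_add, ← Real.exp_add]; norm_num
  have h1 := Real.exp_one_lt_d9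
  have h2 := exp_fifth_le
  have h3 := Real.exp_pos 1
  rw [h]
  calc _ ≤ 2.7182818286 * 2.7182818286 * (5 / 4 : ℝ) := by gcongr
    _ ≤ _ := by norm_num

theorem exp_15_le : Real.exp 1.5 ≤ 4.482 := by
  have h : Real.exp 1.5 ^ 2 = Real.exp 1 * Real.exp 1 * Real.exp 1 := by
    rw [← Real.exp_add, ← Real.exp_add, ← Real.exp_nat_mul]; norm_num
  have h1 := Real.exp_one_lt_d9
  have h3 := Real.exp_pos 1
  have h4 : Real.exp 1.5 ^ 2 ≤ 4.482 ^ 2 := by
    rw [h]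
    calc _ ≤ 2.7182818286 * 2.7182818286 * (2.7182818286 : ℝ) := by gcongr
      _ ≤ _ := by norm_num
  exact (pow_le_pow_iff_left₀ (Real.exp_pos _).le (by norm_num) two_ne_zero).mp h4

theorem exp_08_le : Real.exp 0.8 ≤ 2.27 := by
  have h : Real.exp 0.8 * Real.exp (1 / 5) = Real.exp 1 := by
    rw [← Real.exp_add]; norm_num
  have h1 := Real.exp_one_lt_d9
  have h2 := Real.add_one_le_exp (1 / 5)
  have h3 := Real.exp_pos 0.8
  nlinarith

theorem log_ge {T : ℝ} (hT : 1000 ≤ T) : 6.9 ≤ Real.log T := by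
  rw [Real.le_log_iff_exp_le (by linarith)]
  have h : Real.exp 6.9 * Real.exp (1 / 10) = Real.exp 1 ^ 7 := by
    rw [← Real.exp_add, ← Real.exp_nat_mul]; norm_num
  have h1 := Real.exp_one_lt_d9
  have h2 := Real.add_one_le_exp (1 / 10)
  have h3 := Real.exp_pos 6.9
  have h4 : Real.exp 1 ^ 7 ≤ 2.7182818286 ^ 7 := by gcongr
  have h5 : (2.7182818286 : ℝ) ^ 7 ≤ 1097 := by norm_num
  nlinarith

theorem lam_le_log {y T c E κ : ℝ} (hT : 1000 ≤ T) (hκ : 0 < κ) (hy : κ / T ≤ y)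
    (hE : Real.exp c ≤ E) (h : (1 / κ + 1 / 1000) * E ≤ 1) : lam y ≤ Real.log T - c := by
  have hT0 : 0 < T := by linarith
  have hy0 : 0 < y := lt_of_lt_of_le (by positivity) hy
  rw [le_sub_iff_add_le, lam, ← Real.log_exp c, ← Real.log_mul (by positivity) (by positivity)]
  apply Real.log_le_log (by positivity)
  have h1 : 1 / y ≤ 1 / κ * T := by
    rw [div_le_iff₀ hy0]
    rw [div_le_iff₀ hT0] at hy
    have : 1 / κ * T * y = (y * T) / κ := by ring
    rw [this, le_div_iff₀ hκ]; linarith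
  have h2 : 1 + 1 / y ≤ (1 / κ + 1 / 1000) * T := by linarith
  calc (1 + 1 / y) * Real.exp c ≤ ((1 / κ + 1 / 1000) * T) * E := by gcongr
    _ = ((1 / κ + 1 / 1000) * E) * T := by ring
    _ ≤ 1 * T := by gcongr
    _ = T := one_mul T

/-- polynomial bound for `JJ / T` -/
noncomputable def PP (L : ℝ) : ℝ :=
  (8 * (L - 2.2) + 37 / 8 * (L - 2.2) ^ 2 + 29 / 36 * (L - 2.2) ^ 3 + 1 / 24 * (L - 2.2) ^ 4) / 1.4985
  + 0.4254 * (4 * (L - 1.5) + 7 / 4 * (L - 1.5) ^ 2 + 1 / 6 * (L - 1.5) ^ 3)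
  + 0.0345 * (L - 0.8) ^ 2

theorem JJ_le {T : ℝ} (hT : 1000 ≤ T) :
    JJ (Real.sin (3 / (4 * T))) (Real.cos (3 / (4 * T))) ≤ T * PP (Real.log T) := by
  have hT0 : 0 < T := by linarith
  set δ := 3 / (4 * T) with hδ
  have hδ0 : 0 < δ := by positivity
  have hδ1 : δ ≤ 0.00075 := by rw [hδ, div_le_iff₀ (by positivity)]; linarith
  have hδT : δ * T = 3 / 4 := by rw [hδ]; field_simp
  set S := Real.sin δ with hS
  set C := Real.cos δ with hC
  have hS1 : S ≤ δ := Real.sin_le hδ0.le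
  have hS2 : 0.999 * δ ≤ S := by
    have := Real.sin_gt_sub_cube hδ0
    have h2 : δ ^ 3 ≤ 0.001 * δ := by nlinarith [mul_pos hδ0 hδ0]
    linarith
  have hS0 : 0 < S := by linarith
  have hC1 : 1 - δ ^ 2 / 2 ≤ C := Real.one_sub_sq_div_two_le_cos
  have hC2 : 0.999 ≤ C := by nlinarith
  have hC3 : C ≤ 1 := Real.cos_le_one δ
  have hpi := Real.pi_gt_d4
  have hpi' := Real.pi_lt_d4
  have hST : 0.74925 / T ≤ S := by
    rw [div_le_iff₀ hT0]; nlinarith
  have hπS : 2.3537 / T ≤ Real.pi * S := by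
    calc 2.3537 / T ≤ 3.1415 * (0.74925 / T) := by
          rw [← mul_div_assoc]; gcongr; norm_num
      _ ≤ _ := by gcongr
  have hL := log_ge hT
  have l1 : lam (4 * Real.pi * S) ≤ Real.log T - 2.2 :=
    lam_le_log (κ := 9.4148) hT (by norm_num) (by
      have : 9.4148 / T = 4 * (2.3537 / T) := by ring
      rw [this, mul_assoc]; gcongr) exp_22_le (by norm_num)
  have l2 : lam (2 * Real.pi * S) ≤ Real.log T - 1.5 :=
    lam_le_log (κ := 4.7074) hT (by norm_num) (by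
      have : 4.7074 / T = 2 * (2.3537 / T) := by ring
      rw [this, mul_assoc]; gcongr) exp_15_le (by norm_num)
  have l3 : lam (Real.pi * S) ≤ Real.log T - 0.8 :=
    lam_le_log (κ := 2.3537) hT (by norm_num) hπS exp_08_le (by norm_num)
  have p1 := lam_pos (y := 4 * Real.pi * S) (by positivity)
  have p2 := lam_pos (y := 2 * Real.pi * S) (by positivity)
  have p3 := lam_pos (y := Real.pi * S) (by positivity)
  set L := Real.log T with hLdef
  have a1 : 0 ≤ L - 2.2 := by linarith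
  have a2 : 0 ≤ L - 1.5 := by linarith
  have a3 : 0 ≤ L - 0.8 := by linarith
  have t1 : (8 * lam (4 * Real.pi * S) + 37 / 8 * lam (4 * Real.pi * S) ^ 2 +
      29 / 36 * lam (4 * Real.pi * S) ^ 3 + 1 / 24 * lam (4 * Real.pi * S) ^ 4) / (2 * S) ≤
      T * ((8 * (L - 2.2) + 37 / 8 * (L - 2.2) ^ 2 + 29 / 36 * (L - 2.2) ^ 3 +
        1 / 24 * (L - 2.2) ^ 4) / 1.4985) := by
    calc _ ≤ (8 * (L - 2.2) + 37 / 8 * (L - 2.2) ^ 2 + 29 / 36 * (L - 2.2) ^ 3 +
        1 / 24 * (L - 2.2) ^ 4) / (2 * (0.74925 / T)) := by gcongr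
      _ = _ := by field_simp; ring
  have t2 : 4 / C * ((4 * lam (2 * Real.pi * S) + 7 / 4 * lam (2 * Real.pi * S) ^ 2 +
      1 / 6 * lam (2 * Real.pi * S) ^ 3) / (4 * Real.pi * S)) ≤
      T * (0.4254 * (4 * (L - 1.5) + 7 / 4 * (L - 1.5) ^ 2 + 1 / 6 * (L - 1.5) ^ 3)) := by
    rw [mul_assoc 4 Real.pi S]
    calc _ ≤ 4 / 0.999 * ((4 * (L - 1.5) + 7 / 4 * (L - 1.5) ^ 2 + 1 / 6 * (L - 1.5) ^ 3) /
        (4 * (2.3537 / T))) := by gcongr
      _ = T * ((1 / (0.999 * 2.3537)) *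
        (4 * (L - 1.5) + 7 / 4 * (L - 1.5) ^ 2 + 1 / 6 * (L - 1.5) ^ 3)) := by field_simp
      _ ≤ _ := by gcongr; norm_num
  have t3 : (S / C ^ 2 + 2 * Real.pi * (1 - C) / C) * (lam (Real.pi * S) / (2 * Real.pi * S)) ^ 2 ≤
      T * (0.0345 * (L - 0.8) ^ 2) := by
    have h1 : S / C ^ 2 ≤ δ / 0.999 ^ 2 := by gcongr
    have h2 : 2 * Real.pi * (1 - C) / C ≤ 2 * 3.1416 * (0.000375 * δ) / 0.999 := by
      have : 1 - C ≤ 0.000375 * δ := by nlinarith
      have : 0 ≤ 1 - C := by linarith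
      gcongr
    have h3 : S / C ^ 2 + 2 * Real.pi * (1 - C) / C ≤ 0.754 / T := by
      have h4 : δ / 0.999 ^ 2 + 2 * 3.1416 * (0.000375 * δ) / 0.999 ≤ 1.005 * δ := by
        norm_num; linarith
      have h5 : 1.005 * δ ≤ 0.754 / T := by
        rw [le_div_iff₀ hT0]; nlinarith
      linarith
    rw [mul_assoc 2 Real.pi S]
    calc _ ≤ 0.754 / T * ((L - 0.8) / (2 * (2.3537 / T))) ^ 2 := by gcongr
      _ = T * ((0.754 / (2 * 2.3537) ^ 2) * (L - 0.8) ^ 2) := by field_simp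
      _ ≤ _ := by gcongr; norm_num
  rw [JJ, PP]
  linarith

theorem PP_le {L : ℝ} (hL : 6.9 ≤ L) : 4.482 * (5151 / 2500 * PP L + 6.626) ≤ 6 / 7 * L ^ 4 := by
  obtain ⟨x, hx, rfl⟩ : ∃ x, 0 ≤ x ∧ L = 6.9 + x := ⟨L - 6.9, by linarith, by ring⟩
  rw [PP]
  have h2 : 0 ≤ x ^ 2 := by positivity
  have h3 : 0 ≤ x ^ 3 := by positivity
  have h4 : 0 ≤ x ^ 4 := by positivity
  ring_nf
  nlinarith

theorem fourth_moment {T : ℝ} (hT : 1000 ≤ T) :
    ∫ t in (0 : ℝ)..T, ‖riemannZeta (1 / 2 + t * I)‖ ^ 4 ≤ 6 / 7 * T * Real.log T ^ 4 := by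
  have hT0 : 0 < T := by linarith
  have h1 := moment_le (δ := 3 / (4 * T)) (T := T) (by positivity)
    (by rw [div_le_iff₀ (by positivity)]; linarith) hT0.le
  have h2 : 2 * (3 / (4 * T)) * T = 1.5 := by field_simp; norm_num
  rw [h2] at h1
  have h3 := JJ_le hT
  have h4 := PP_le (log_ge hT)
  have h5 : 5151 / 2500 * JJ (Real.sin (3 / (4 * T))) (Real.cos (3 / (4 * T))) + 6626 ≤
      T * (5151 / 2500 * PP (Real.log T) + 6.626) := by nlinarith
  have h6 := exp_15_le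
  have h7 := Real.exp_pos 1.5
  have h8 : 0 ≤ 5151 / 2500 * PP (Real.log T) + 6.626 := by
    have hL := log_ge hT
    have a1 : 0 ≤ Real.log T - 2.2 := by linarith
    have a2 : 0 ≤ Real.log T - 1.5 := by linarith
    rw [PP]; positivity
  calc _ ≤ Real.exp 1.5 * (T * (5151 / 2500 * PP (Real.log T) + 6.626)) :=
        le_trans h1 (mul_le_mul_of_nonneg_left h5 h7.le)
    _ ≤ 4.482 * (T * (5151 / 2500 * PP (Real.log T) + 6.626)) := by gcongr
    _ = T * (4.482 * (5151 / 2500 * PP (Real.log T) + 6.626)) := by ring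
    _ ≤ T * (6 / 7 * Real.log T ^ 4) := by gcongr
    _ = _ := by ring

end Pool.Agent.MP_3d0d30_nt

end MrgPart6

-- marker of a merged file
example : 731051 + 889536 = 731051 + 889536 := rfl
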