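import Mathlib.Topology.Sheaves.Presheaf
import Mathlib.Tactic.Monotonicity.Lemmas
import Mathlib.Algebra.Order.Ring.Star
import Mathlib.Algebra.Order.Star.Real
import Mathlib.Analysis.CStarAlgebra.Classes
import Mathlib.Analysis.Fourier.Inversion
import Mathlib.Analysis.SpecialFunctions.Gamma.Deriv
import Mathlib.NumberTheory.Harmonic.ZetaAsymp
import Mathlib.NumberTheory.LSeries.SumCoeff

-- ======== part 0: formerly Pool.Agent.MP_3d0d30_nt.Shift
section MrgPart0

set_option autoImplicit false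
open MeasureTheory Filter Topology Set Complex

namespace Pool.Agent.MP_3d0d30_nt

theorem integrable_exp_abs {c : ℝ} (hc : 0 < c) :
    Integrable (fun t : ℝ => Real.exp (-c * |t|)) := by
  have h1 : IntegrableOn (fun t : ℝ => Real.exp (-c * |t|)) (Ioi 0) := by
    refine (integrableOn_exp_mul_Ioi (a := -c) (by linarith) 0).congr_fun ?_ measurableSet_Ioi
    intro t ht
    simp only [abs_of_pos (show (0:ℝ) < t from ht)]
  have h2 : IntegrableOn (fun t : ℝ => Real.exp (-c * |t|)) (Iic 0) := by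
    refine (integrableOn_exp_mul_Iic (a := c) hc 0).congr_fun ?_ measurableSet_Iic
    intro t ht
    simp only [abs_of_nonpos (show t ≤ (0:ℝ) from ht)]
    ring_nf
  rw [← integrableOn_univ, ← Iic_union_Ioi (a := (0:ℝ))]
  exact h2.union h1

theorem integral_exp_abs {c : ℝ} (hc : 0 < c) :
    ∫ t : ℝ, Real.exp (-c * |t|) = 2 / c := by
  rw [integral_comp_abs (f := fun t => Real.exp (-c * t)), integral_exp_mul_Ioi (by linarith)]
  simp only [mul_zero, Real.exp_zero]
  field_simp

/-- a continuous function with exponential decay is integrable -/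
theorem integrable_of_decay {E : Type*} [NormedAddCommGroup E] {g : ℝ → E} {C c : ℝ} (hc : 0 < c)
    (hg : Continuous g) (hb : ∀ t, 1 ≤ |t| → ‖g t‖ ≤ C * Real.exp (-c * |t|)) : Integrable g := by
  have h1 : IntegrableOn g (Icc (-1) 1) := hg.continuousOn.integrableOn_Icc
  have h2 : IntegrableOn g (Icc (-1) 1)ᶜ := by
    refine Integrable.mono' (((integrable_exp_abs hc).const_mul C).integrableOn)
      hg.aestronglyMeasurable ?_
    filter_upwards [ae_restrict_mem (measurableSet_Icc.compl)] with t ht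
    apply hb
    by_contra h
    push Not at h
    exact ht ⟨(abs_lt.mp h).1.le, (abs_lt.mp h).2.le⟩
  rw [← integrableOn_univ, ← union_compl_self (Icc (-1 : ℝ) 1)]
  exact h1.union h2

theorem continuous_line {f : ℂ → ℂ} {a b σ : ℝ} (hσ : σ ∈ Icc a b)
    (hf : DifferentiableOn ℂ f {z | a ≤ z.re ∧ z.re ≤ b}) :
    Continuous (fun t : ℝ => f (σ + t * I)) := by
  refine hf.continuousOn.comp_continuous (by fun_prop) ?_
  intro t
  simpa using hσ

/-- shifting a vertical line of integration -/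
theorem shift {f : ℂ → ℂ} {a b C c : ℝ} (hab : a ≤ b) (hc : 0 < c)
    (hf : DifferentiableOn ℂ f {z | a ≤ z.re ∧ z.re ≤ b})
    (hb : ∀ σ ∈ Icc a b, ∀ t : ℝ, 1 ≤ |t| → ‖f (σ + t * I)‖ ≤ C * Real.exp (-c * |t|)) :
    ∫ t : ℝ, f (a + t * I) = ∫ t : ℝ, f (b + t * I) := by
  have ha' : a ∈ Icc a b := ⟨le_rfl, hab⟩
  have hb' : b ∈ Icc a b := ⟨hab, le_rfl⟩
  have ia := integrable_of_decay hc (continuous_line ha' hf) (hb a ha')
  have ib := integrable_of_decay hc (continuous_line hb' hf) (hb b hb')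
  have ta := intervalIntegral_tendsto_integral ia tendsto_neg_atTop_atBot tendsto_id
  have tb := intervalIntegral_tendsto_integral ib tendsto_neg_atTop_atBot tendsto_id
  have hdec : Tendsto (fun R : ℝ => (C * Real.exp (-c * R)) * |b - a|) atTop (𝓝 0) := by
    have h1 : Tendsto (fun R : ℝ => Real.exp (-c * R)) atTop (𝓝 0) :=
      Real.tendsto_exp_atBot.comp (tendsto_id.const_mul_atTop_of_neg (by linarith))
    simpa using (h1.const_mul C).mul_const |b - a|
  have hor : ∀ e : ℝ, |e| = 1 →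
      Tendsto (fun R : ℝ => ∫ x in a..b, f (x + ((e * R : ℝ) : ℂ) * I)) atTop (𝓝 0) := by
    intro e he
    refine squeeze_zero_norm' ?_ hdec
    filter_upwards [eventually_ge_atTop 1] with R hR
    apply intervalIntegral.norm_integral_le_of_norm_le_const
    intro x hx
    rw [uIoc_of_le hab] at hx
    have h1 : |e * R| = R := by rw [abs_mul, he, one_mul, abs_of_nonneg (by linarith)]
    have := hb x ⟨hx.1.le, hx.2⟩ (e * R) (by rw [h1]; exact hR)
    rwa [h1] at this
  have h1 := hor (-1) (by simp)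
  have h2 := hor 1 (by simp)
  have hlim := ((h1.sub h2).add (tb.const_smul I)).sub (ta.const_smul I)
  have hz : ∀ R : ℝ, (∫ x in a..b, f (x + ((-1 * R : ℝ) : ℂ) * I)) -
      (∫ x in a..b, f (x + ((1 * R : ℝ) : ℂ) * I)) +
      I • (∫ y in (-R)..(id R), f (b + y * I)) - I • (∫ y in (-R)..(id R), f (a + y * I)) = 0 := by
    intro R
    have := Complex.integral_boundary_rect_eq_zero_of_differentiableOn f ⟨a, -R⟩ ⟨b, R⟩
      (hf.mono (by
        intro z hz
        rw [Complex.mem_reProdIm, uIcc_of_le hab] at hz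
        exact hz.1))
    simpa using this
  simp only [hz] at hlim
  have h3 := tendsto_nhds_unique hlim tendsto_const_nhds
  simp only [sub_self, zero_add, smul_eq_mul] at h3
  have h4 : I * ((∫ t : ℝ, f (b + t * I)) - ∫ t : ℝ, f (a + t * I)) = 0 := by
    rw [mul_sub]; exact h3
  rcases mul_eq_zero.mp h4 with h | h
  · exact absurd h I_ne_zero
  · exact (sub_eq_zero.mp h).symm

/-- Fourier transform in the angular normalisation -/
noncomputable def FT (g : ℝ → ℂ) (u : ℝ) : ℂ := ∫ t : ℝ, g t * cexp (-(t * u : ℝ) * I)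

open scoped FourierTransform in
theorem FT_eq (g : ℝ → ℂ) (ξ : ℝ) : 𝓕 g ξ = FT g (2 * Real.pi * ξ) := by
  rw [Real.fourier_real_eq_integral_exp_smul, FT]
  congr 1
  ext t
  rw [smul_eq_mul, mul_comm]
  congr 2
  push_cast
  ring

theorem norm_cexp_neg_mul_I (x : ℝ) : ‖cexp (-(x : ℂ) * I)‖ = 1 := by
  rw [← ofReal_neg, norm_exp_ofReal_mul_I]

theorem norm_FT_le (g : ℝ → ℂ) (u : ℝ) : ‖FT g u‖ ≤ ∫ t, ‖g t‖ := by
  refine le_trans (norm_integral_le_integral_norm _) (le_of_eq ?_)
  congr 1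
  ext t
  rw [norm_mul, norm_cexp_neg_mul_I, mul_one]

open scoped FourierTransform in
theorem continuous_FT {g : ℝ → ℂ} (hg : Integrable g) : Continuous (FT g) := by
  have h1 : Continuous (𝓕 g) :=
    VectorFourier.fourierIntegral_continuous Real.continuous_fourierChar
      (by exact continuous_inner) hg
  have h2 : FT g = fun u => 𝓕 g (u / (2 * Real.pi)) := by
    ext u
    rw [FT_eq]
    congr 1
    field_simp
  rw [h2]
  exact h1.comp (by fun_prop)

open scoped FourierTransform in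
theorem FT_inv {g : ℝ → ℂ} (hc : Continuous g) (hg : Integrable g) (hG : Integrable (FT g))
    (t : ℝ) : ∫ u : ℝ, FT g u * cexp ((t * u : ℝ) * I) = 2 * Real.pi * g t := by
  have hpi : (2 * Real.pi) ≠ 0 := by positivity
  have h1 : Integrable (𝓕 g) := by
    have : 𝓕 g = fun ξ => FT g (2 * Real.pi * ξ) := by ext ξ; exact FT_eq g ξ
    rw [this]
    exact hG.comp_mul_left' hpi
  have h2 := hg.fourierInv_fourier_eq h1 (hc.continuousAt (x := t))
  rw [Real.fourierInv_eq'] at h2
  have h3 := Measure.integral_comp_mul_left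
    (fun u : ℝ => FT g u * cexp ((t * u : ℝ) * I)) (2 * Real.pi)
  have h4 : ∫ ξ : ℝ, FT g (2 * Real.pi * ξ) * cexp ((t * (2 * Real.pi * ξ) : ℝ) * I) = g t := by
    rw [← h2]
    congr 1
    ext ξ
    rw [FT_eq, smul_eq_mul, mul_comm]
    have : 2 * Real.pi * inner ℝ ξ t = t * (2 * Real.pi * ξ) := by
      simp only [RCLike.inner_apply, conj_trivial]
      ring
    rw [this, mul_comm]
  rw [h4, abs_of_pos (by positivity), real_smul] at h3
  rw [h3, ← mul_assoc]
  have : (2 * (Real.pi : ℂ)) * (((2 * Real.pi)⁻¹ : ℝ) : ℂ) = 1 := by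
    have : (Real.pi : ℂ) ≠ 0 := by exact_mod_cast Real.pi_pos.ne'
    push_cast
    field_simp
  rw [this, one_mul]

theorem integrable_sq_of_bdd {g : ℝ → ℂ} (hg : Integrable g) {M : ℝ} (hM : ∀ t, ‖g t‖ ≤ M) :
    Integrable (fun t => ‖g t‖ ^ 2) := by
  refine Integrable.mono' (hg.norm.const_mul M) (hg.norm.aestronglyMeasurable.pow 2) ?_
  filter_upwards with t
  rw [Real.norm_of_nonneg (by positivity), sq]
  exact mul_le_mul_of_nonneg_right (hM t) (norm_nonneg _)

theorem integrable_sq_FT {g : ℝ → ℂ} (hG : Integrable (FT g)) :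
    Integrable (fun u => ‖FT g u‖ ^ 2) :=
  integrable_sq_of_bdd hG (norm_FT_le g)

/-- Plancherel's identity -/
theorem plancherel {g : ℝ → ℂ} (hc : Continuous g) (hg : Integrable g) (hG : Integrable (FT g)) :
    ∫ u, ‖FT g u‖ ^ 2 = 2 * Real.pi * ∫ t, ‖g t‖ ^ 2 := by
  have hconj : ∀ u, (starRingEnd ℂ) (FT g u) =
      ∫ t : ℝ, (starRingEnd ℂ) (g t) * cexp ((t * u : ℝ) * I) := by
    intro u
    rw [FT, ← integral_conj]
    congr 1
    ext t
    rw [map_mul, ← exp_conj]
    congr 2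
    simp
  have hgc : Integrable (fun t => (starRingEnd ℂ) (g t)) := by
    refine Integrable.mono' hg.norm (by fun_prop) ?_
    filter_upwards with t
    simp
  have hint : Integrable (Function.uncurry fun (u t : ℝ) =>
      FT g u * ((starRingEnd ℂ) (g t) * cexp ((t * u : ℝ) * I))) (volume.prod volume) := by
    refine Integrable.mono' (hG.norm.mul_prod hg.norm) ?_ ?_
    · have := continuous_FT hg
      exact (by unfold Function.uncurry; fun_prop : Continuous _).aestronglyMeasurable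
    · filter_upwards with p
      simp only [Function.uncurry, norm_mul, norm_exp_ofReal_mul_I, mul_one, RCLike.norm_conj,
        le_refl]
  have h1 : ∫ u, ((‖FT g u‖ ^ 2 : ℝ) : ℂ) = ∫ t, 2 * Real.pi * ((‖g t‖ ^ 2 : ℝ) : ℂ) := by
    calc ∫ u, ((‖FT g u‖ ^ 2 : ℝ) : ℂ)
        = ∫ u, ∫ t : ℝ, FT g u * ((starRingEnd ℂ) (g t) * cexp ((t * u : ℝ) * I)) := by
          congr 1
          ext u
          rw [integral_const_mul, ← hconj, mul_conj, normSq_eq_norm_sq]
      _ = ∫ t : ℝ, ∫ u, FT g u * ((starRingEnd ℂ) (g t) * cexp ((t * u : ℝ) * I)) :=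
          integral_integral_swap hint
      _ = _ := by
          congr 1
          ext t
          have : ∀ u : ℝ, FT g u * ((starRingEnd ℂ) (g t) * cexp ((t * u : ℝ) * I)) =
              (starRingEnd ℂ) (g t) * (FT g u * cexp ((t * u : ℝ) * I)) := fun u => by ring
          simp_rw [this]
          rw [integral_const_mul, FT_inv hc hg hG, ← normSq_eq_norm_sq, normSq_eq_conj_mul_self]
          ring
  rw [integral_const_mul, integral_complex_ofReal, integral_complex_ofReal] at h1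
  exact_mod_cast h1

/-- a real form of Fatou's lemma -/
theorem fatou_real {μ : Measure ℝ} {f : ℕ → ℝ → ℝ} {h l : ℝ → ℝ} {B : ℝ}
    (hf : ∀ n, Integrable (f n) μ) (h0 : ∀ n x, 0 ≤ f n x) (hB : ∀ n, ∫ x, f n x ∂μ ≤ B)
    (hh : Integrable h μ) (hh0 : ∀ x, 0 ≤ h x)
    (hlim : ∀ᵐ x ∂μ, Tendsto (fun n => f n x) atTop (𝓝 (l x)) ∧ h x ≤ l x) :
    ∫ x, h x ∂μ ≤ B := by
  have hB0 : 0 ≤ B := le_trans (integral_nonneg (h0 0)) (hB 0)
  have h1 : ENNReal.ofReal (∫ x, h x ∂μ) ≤ ENNReal.ofReal B := by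
    rw [ofReal_integral_eq_lintegral_ofReal hh (Eventually.of_forall hh0)]
    calc ∫⁻ x, ENNReal.ofReal (h x) ∂μ
        ≤ ∫⁻ x, liminf (fun n => ENNReal.ofReal (f n x)) atTop ∂μ := by
          apply lintegral_mono_ae
          filter_upwards [hlim] with x hx
          rw [(ENNReal.tendsto_ofReal hx.1).liminf_eq]
          exact ENNReal.ofReal_le_ofReal hx.2
      _ ≤ liminf (fun n => ∫⁻ x, ENNReal.ofReal (f n x) ∂μ) atTop :=
          lintegral_liminf_le' (fun n => (hf n).aemeasurable.ennreal_ofReal)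
      _ ≤ ENNReal.ofReal B := by
          apply liminf_le_of_frequently_le'
          apply Frequently.of_forall
          intro n
          rw [← ofReal_integral_eq_lintegral_ofReal (hf n) (Eventually.of_forall (h0 n))]
          exact ENNReal.ofReal_le_ofReal (hB n)
  exact (ENNReal.ofReal_le_ofReal_iff hB0).mp h1

end Pool.Agent.MP_3d0d30_nt

end MrgPart0

-- ======== part 1: formerly Pool.Agent.MP_3d0d30_nt.GammaInt
section MrgPart1

set_option autoImplicit false
open MeasureTheory Filter Topology Set Complex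

namespace Pool.Agent.MP_3d0d30_nt

/-- the Gamma integrand in logarithmic coordinates -/
noncomputable def kk (s w : ℂ) : ℂ := cexp (s * w - cexp w)

theorem real_bound {σ c : ℝ} (hσ : 0 < σ) (hc : 0 < c) (t : ℝ) :
    σ * t - Real.exp t * c ≤ 2 * σ ^ 2 / c + -σ * |t| := by
  have h0 : 0 ≤ 2 * σ ^ 2 / c := by positivity
  rcases le_total t 0 with ht | ht
  · rw [abs_of_nonpos ht]
    have : 0 ≤ Real.exp t * c := by positivity
    linarith
  · rw [abs_of_nonneg ht]
    have h1 := Real.quadratic_le_exp_of_nonneg ht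
    have h2 : t ^ 2 / 2 * c ≤ Real.exp t * c :=
      mul_le_mul_of_nonneg_right (by linarith) hc.le
    have h3 : 0 ≤ c / 2 * (t - 2 * σ / c) ^ 2 := by positivity
    have h4 : c / 2 * (t - 2 * σ / c) ^ 2 = t ^ 2 / 2 * c - 2 * σ * t + 2 * σ ^ 2 / c := by
      field_simp; ring
    linarith

theorem norm_kk (s : ℂ) (v β : ℝ) :
    ‖kk s (v + β * I)‖ = Real.exp (s.re * v - s.im * β - Real.exp v * Real.cos β) := by
  rw [kk, norm_exp]
  congr 1
  simp [exp_re]

theorem norm_kk_le {s : ℂ} (hs : 0 < s.re) {β B : ℝ} (hB : B < Real.pi / 2) (hβ : |β| ≤ B)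
    (v : ℝ) : ‖kk s (v + β * I)‖ ≤
      Real.exp (-s.im * β + 2 * s.re ^ 2 / Real.cos B) * Real.exp (-s.re * |v|) := by
  have hB0 : 0 ≤ B := le_trans (abs_nonneg _) hβ
  have hc : 0 < Real.cos B := Real.cos_pos_of_mem_Ioo ⟨by linarith [Real.pi_pos], hB⟩
  have hcos : Real.cos B ≤ Real.cos β := by
    rw [← Real.cos_abs β]
    exact Real.cos_le_cos_of_nonneg_of_le_pi (abs_nonneg _) (by linarith [Real.pi_pos]) hβ
  rw [norm_kk, ← Real.exp_add]
  apply Real.exp_le_exp.mpr
  have h1 := real_bound hs hc v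
  have h2 : Real.exp v * Real.cos B ≤ Real.exp v * Real.cos β :=
    mul_le_mul_of_nonneg_left hcos (Real.exp_pos v).le
  linarith

theorem differentiable_kk (s : ℂ) : Differentiable ℂ (kk s) := by
  unfold kk; fun_prop

theorem continuous_kk_line (s : ℂ) (β : ℝ) : Continuous (fun v : ℝ => kk s (v + β * I)) :=
  (differentiable_kk s).continuous.comp (by fun_prop)

theorem integrable_kk {s : ℂ} (hs : 0 < s.re) {β : ℝ} (hβ : |β| < Real.pi / 2) :
    Integrable (fun v : ℝ => kk s (v + β * I)) :=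
  integrable_of_decay hs (continuous_kk_line s β) (fun v _ => norm_kk_le hs hβ le_rfl v)

theorem Gamma_eq_kk0 {s : ℂ} (hs : 0 < s.re) : ∫ v : ℝ, kk s v = Gamma s := by
  rw [Gamma_eq_integral hs, GammaIntegral, ← Real.range_exp, ← image_univ,
    integral_image_eq_integral_abs_deriv_smul MeasurableSet.univ
      (fun x _ => (Real.hasDerivAt_exp x).hasDerivWithinAt)
      (fun x _ y _ hxy => Real.exp_injective hxy), Measure.restrict_univ]
  congr 1
  ext v
  rw [abs_of_pos (Real.exp_pos v), real_smul, cpow_def_of_ne_zero (by simp), kk,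
    ← ofReal_log (Real.exp_pos v).le, Real.log_exp]
  push_cast
  rw [← exp_add, ← exp_add]
  congr 1
  ring

theorem Gamma_eq_kk {s : ℂ} (hs : 0 < s.re) {β : ℝ} (hβ : |β| < Real.pi / 2) :
    ∫ v : ℝ, kk s (v + β * I) = Gamma s := by
  have key : ∀ a b : ℝ, a ≤ b → |a| ≤ |β| → |b| ≤ |β| →
      ∫ v : ℝ, kk s (v + (-a : ℝ) * I) = ∫ v : ℝ, kk s (v + (-b : ℝ) * I) := by
    intro a b hab ha hb
    have e : ∀ x t : ℝ, -I * ((x : ℂ) + t * I) = t + (-x : ℝ) * I := by
      intro x t
      push_cast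
      linear_combination (-(t : ℂ)) * I_mul_I
    have := shift (f := fun z => kk s (-I * z)) (a := a) (b := b)
      (C := Real.exp (|s.im| * |β| + 2 * s.re ^ 2 / Real.cos |β|)) hab hs
      (((differentiable_kk s).comp (by fun_prop)).differentiableOn) (by
        intro x hx t _
        have hx' : |(-x)| ≤ |β| := by
          rw [abs_neg, abs_le]
          constructor
          · linarith [hx.1, (abs_le.mp ha).1]
          · linarith [hx.2, (abs_le.mp hb).2]
        simp only [e]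
        refine le_trans (norm_kk_le hs hβ hx' t) ?_
        have h9 : -s.im * -x ≤ |s.im| * |β| := by
          calc -s.im * -x ≤ |(-s.im * -x)| := le_abs_self _
            _ = |s.im| * |(-x)| := by rw [abs_mul, abs_neg]
            _ ≤ _ := by gcongr
        exact mul_le_mul_of_nonneg_right (Real.exp_le_exp.mpr (by linarith))
          (Real.exp_pos _).le)
    simpa only [e] using this
  rw [← Gamma_eq_kk0 hs]
  rcases le_total β 0 with h | h
  · have := key 0 (-β) (by linarith) (by simp) (by simp)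
    simpa using this.symm
  · have := key (-β) 0 (by linarith) (by simp) (by simp)
    simpa using this

/-- exponential decay of Gamma in a vertical strip -/
theorem norm_Gamma_le {σ β : ℝ} (hσ : σ ∈ Icc (1 / 4 : ℝ) 2) (hβ0 : 0 ≤ β) (hβ : β < Real.pi / 2)
    (t : ℝ) : ‖Gamma (σ + t * I)‖ ≤ (Real.exp (8 / Real.cos β) * 8) * Real.exp (-β * |t|) := by
  have hσ0 : 0 < σ := by linarith [hσ.1]
  have hc : 0 < Real.cos β := Real.cos_pos_of_mem_Ioo ⟨by linarith [Real.pi_pos], hβ⟩
  have hre : ((σ : ℂ) + t * I).re = σ := by simp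
  have him : ((σ : ℂ) + t * I).im = t := by simp
  obtain ⟨γ, hγ, hγt⟩ : ∃ γ : ℝ, |γ| = β ∧ -t * γ = -β * |t| := by
    rcases le_total 0 t with h | h
    · exact ⟨β, abs_of_nonneg hβ0, by rw [abs_of_nonneg h]; ring⟩
    · exact ⟨-β, by rw [abs_neg, abs_of_nonneg hβ0], by rw [abs_of_nonpos h]; ring⟩
  rw [← Gamma_eq_kk (s := σ + t * I) (β := γ) (by rw [hre]; exact hσ0) (by rw [hγ]; exact hβ)]
  have h1 : ‖∫ v : ℝ, kk (σ + t * I) (v + γ * I)‖ ≤
      ∫ v : ℝ, Real.exp (-β * |t| + 2 * σ ^ 2 / Real.cos β) * Real.exp (-σ * |v|) := by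
    apply norm_integral_le_of_norm_le ((integrable_exp_abs hσ0).const_mul _)
    filter_upwards with v
    have := norm_kk_le (s := σ + t * I) (β := γ) (by rw [hre]; exact hσ0) hβ hγ.le v
    rwa [hre, him, hγt] at this
  refine le_trans h1 ?_
  rw [integral_const_mul, integral_exp_abs hσ0, Real.exp_add]
  have h2 : 2 / σ ≤ 8 := by rw [div_le_iff₀ hσ0]; linarith [hσ.1]
  have h3 : Real.exp (2 * σ ^ 2 / Real.cos β) ≤ Real.exp (8 / Real.cos β) := by
    gcongr
    nlinarith [hσ.2]
  calc Real.exp (-β * |t|) * Real.exp (2 * σ ^ 2 / Real.cos β) * (2 / σ)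
      ≤ Real.exp (-β * |t|) * Real.exp (8 / Real.cos β) * 8 := by gcongr
    _ = _ := by ring

theorem differentiableAt_Gamma_of_re_pos {s : ℂ} (hs : 0 < s.re) : DifferentiableAt ℂ Gamma s := by
  apply differentiableAt_Gamma
  intro m h
  rw [h] at hs
  simp at hs
  linarith [Nat.cast_nonneg (α := ℝ) m]

theorem continuous_Gamma_line {σ : ℝ} (hσ : 0 < σ) :
    Continuous (fun t : ℝ => Gamma (σ + t * I)) := by
  rw [continuous_iff_continuousAt]
  intro t
  exact ContinuousAt.comp (f := fun t : ℝ => (σ : ℂ) + t * I)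
    (differentiableAt_Gamma_of_re_pos (by simpa using hσ)).continuousAt (by fun_prop)

theorem norm_cexp_neg_mul (σ t u θ : ℝ) :
    ‖cexp (-((σ : ℂ) + t * I) * (u + θ * I))‖ = Real.exp (-σ * u + t * θ) := by
  rw [norm_exp]
  congr 1
  simp

theorem integrable_Gamma_cexp {σ θ : ℝ} (hσ : σ ∈ Icc (1 / 4 : ℝ) 2) (hθ0 : 0 ≤ θ)
    (hθ : θ < Real.pi / 2) (u : ℝ) :
    Integrable (fun t : ℝ => Gamma (σ + t * I) * cexp (-((σ : ℂ) + t * I) * (u + θ * I))) := by
  have hσ0 : 0 < σ := by linarith [hσ.1]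
  set β := (θ + Real.pi / 2) / 2 with hβ
  have hc : 0 < β - θ := by rw [hβ]; linarith
  refine integrable_of_decay (C := Real.exp (8 / Real.cos β) * 8 * Real.exp (-σ * u)) hc
    ((continuous_Gamma_line hσ0).mul (by fun_prop)) ?_
  intro t _
  rw [norm_mul, norm_cexp_neg_mul]
  have h1 := norm_Gamma_le hσ (β := β) (by linarith) (by rw [hβ]; linarith) t
  have h2 : Real.exp (-σ * u + t * θ) ≤ Real.exp (-σ * u + θ * |t|) := by
    have := mul_le_mul_of_nonneg_left (le_abs_self t) hθ0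
    exact Real.exp_le_exp.mpr (by linarith)
  calc _ ≤ (Real.exp (8 / Real.cos β) * 8) * Real.exp (-β * |t|) *
        Real.exp (-σ * u + θ * |t|) := by gcongr
    _ = _ := by
      rw [Real.exp_add, show -(β - θ) * |t| = -β * |t| + θ * |t| by ring, Real.exp_add]
      ring

/-- the Cahen-Mellin integral -/
theorem cahen_mellin {σ θ : ℝ} (hσ : σ ∈ Icc (1 / 4 : ℝ) 2) (hθ0 : 0 ≤ θ)
    (hθ : θ < Real.pi / 2) (u : ℝ) :
    ∫ t : ℝ, Gamma (σ + t * I) * cexp (-((σ : ℂ) + t * I) * (u + θ * I)) =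
      2 * Real.pi * cexp (-cexp (u + θ * I)) := by
  have hσ0 : 0 < σ := by linarith [hσ.1]
  have hθ' : |θ| < Real.pi / 2 := by rwa [abs_of_nonneg hθ0]
  set g : ℝ → ℂ := fun v => kk σ (v + θ * I) with hg
  have hFT : ∀ t : ℝ, FT g (-t) = Gamma (σ + t * I) * cexp (t * θ) := by
    intro t
    rw [← Gamma_eq_kk (s := σ + t * I) (by simpa using hσ0) hθ', ← integral_mul_const, FT]
    congr 1
    ext v
    simp only [hg, kk]
    rw [← exp_add, ← exp_add]
    congr 1
    push_cast
    linear_combination (-(t : ℂ) * θ) * I_mul_I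
  have hI := integrable_Gamma_cexp hσ hθ0 hθ 0
  have hG : Integrable (FT g) := by
    have h1 : Integrable (fun t : ℝ => FT g (-t)) := by
      refine (hI.mul_const (cexp (σ * (θ * I)))).congr (Eventually.of_forall fun t => ?_)
      simp only [hFT]
      rw [mul_assoc, ← exp_add]
      congr 2
      push_cast
      linear_combination (-(t : ℂ) * θ) * I_mul_I
    simpa using h1.comp_neg
  have h2 := FT_inv (continuous_kk_line σ θ) (integrable_kk (by simpa using hσ0) hθ') hG u
  rw [← integral_neg_eq_self] at h2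
  have h3 : ∀ t : ℝ, Gamma (σ + t * I) * cexp (-((σ : ℂ) + t * I) * (u + θ * I)) =
      cexp (-(σ * (u + θ * I))) * (FT g (-t) * cexp ((u * -t : ℝ) * I)) := by
    intro t
    rw [hFT, mul_assoc, ← exp_add, mul_left_comm, ← exp_add]
    congr 2
    push_cast
    linear_combination (-(t : ℂ) * θ) * I_mul_I
  simp_rw [h3]
  rw [integral_const_mul, h2, kk, mul_left_comm, ← exp_add]
  congr 2
  ring

end Pool.Agent.MP_3d0d30_nt

end MrgPart1

-- ======== part 2: formerly Pool.Agent.MP_3d0d30_nt.ZetaBound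
section MrgPart2

set_option autoImplicit false
open MeasureTheory Filter Topology Set Complex Asymptotics

namespace Pool.Agent.MP_3d0d30_nt

/-- the fractional part integral -/
noncomputable def II (s : ℂ) : ℂ :=
  ∫ t in Ioi (1 : ℝ), ((Int.fract t : ℝ) : ℂ) * (t : ℂ) ^ (-(s + 1))

theorem norm_fract_le (t : ℝ) : ‖((Int.fract t : ℝ) : ℂ)‖ ≤ 1 := by
  rw [norm_real, Real.norm_of_nonneg (Int.fract_nonneg t)]
  exact (Int.fract_lt_one t).le

theorem meas_fract : Measurable (fun t : ℝ => ((Int.fract t : ℝ) : ℂ)) :=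
  measurable_ofReal.comp measurable_fract

theorem II_eq_mellin (s : ℂ) :
    II s = mellin (indicator (Ioi (1 : ℝ)) fun t => ((Int.fract t : ℝ) : ℂ)) (-s) := by
  rw [mellin, II]
  have : ∀ t : ℝ, (t : ℂ) ^ (-s - 1) • indicator (Ioi (1 : ℝ)) (fun t => ((Int.fract t : ℝ) : ℂ)) t
      = indicator (Ioi (1 : ℝ)) (fun t => ((Int.fract t : ℝ) : ℂ) * (t : ℂ) ^ (-(s + 1))) t := by
    intro t
    by_cases h : t ∈ Ioi (1 : ℝ)
    · rw [indicator_of_mem h, indicator_of_mem h, smul_eq_mul, mul_comm]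
      congr 2
      ring
    · rw [indicator_of_notMem h, indicator_of_notMem h, smul_zero]
  simp_rw [this]
  rw [setIntegral_indicator measurableSet_Ioi, Ioi_inter_Ioi]
  simp

theorem differentiableAt_II {s : ℂ} (hs : 0 < s.re) : DifferentiableAt ℂ II s := by
  have h : II = fun s => mellin (indicator (Ioi (1 : ℝ)) fun t => ((Int.fract t : ℝ) : ℂ)) (-s) :=
    funext II_eq_mellin
  rw [h]
  have hb : ∀ t : ℝ, ‖indicator (Ioi (1 : ℝ)) (fun t => ((Int.fract t : ℝ) : ℂ)) t‖ ≤ 1 :=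
    fun t => le_trans (norm_indicator_le_norm_self _ _) (norm_fract_le t)
  refine DifferentiableAt.comp s (g := mellin _) ?_ (by fun_prop)
  refine mellin_differentiableAt_of_isBigO_rpow (a := 0) (b := -s.re - 1) ?_ ?_
    (by simpa using hs) ?_ (by simp)
  · apply LocallyIntegrable.locallyIntegrableOn
    intro x
    refine ⟨Icc (x - 1) (x + 1), Icc_mem_nhds (by linarith) (by linarith), ?_⟩
    refine Measure.integrableOn_of_bounded (M := 1) (by simp)
      (meas_fract.indicator measurableSet_Ioi).aestronglyMeasurable (Eventually.of_forall hb)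
  · apply IsBigO.of_bound 1
    filter_upwards with t
    simpa using hb t
  · apply IsBigO.of_bound 1
    filter_upwards [Ioo_mem_nhdsGT (show (0 : ℝ) < 1 by norm_num)] with t ht
    rw [indicator_of_notMem (by simpa using ht.2.le), norm_zero]
    positivity

theorem norm_II_le {s : ℂ} (hs : 0 < s.re) : ‖II s‖ ≤ 1 / s.re := by
  have h1 : ‖II s‖ ≤ ∫ t in Ioi (1 : ℝ), t ^ (-(s.re + 1)) := by
    apply norm_integral_le_of_norm_le (integrableOn_Ioi_rpow_of_lt (by linarith) one_pos)
    filter_upwards [ae_restrict_mem measurableSet_Ioi] with t ht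
    have ht0 : 0 < t := lt_trans one_pos ht
    rw [norm_mul, norm_cpow_eq_rpow_re_of_pos ht0]
    have : (-(s + 1)).re = -(s.re + 1) := by simp
    rw [this]
    exact mul_le_of_le_one_left (by positivity) (norm_fract_le t)
  refine le_trans h1 (le_of_eq ?_)
  rw [integral_Ioi_rpow_of_lt (by linarith) one_pos, Real.one_rpow]
  have : -(s.re + 1) + 1 = -s.re := by ring
  rw [this, neg_div_neg_eq]

theorem zeta_eq_of_one_lt {s : ℂ} (hs : 1 < s.re) :
    riemannZeta s = s / (s - 1) - s * II s := by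
  have hs1 : s - 1 ≠ 0 := by
    intro h
    rw [sub_eq_zero.mp h] at hs
    simp at hs
  rw [← LSeries_one_eq_riemannZeta hs, LSeries_eq_mul_integral' 1 zero_le_one hs (by
    apply IsBigO.of_bound 1
    filter_upwards with n
    simp)]
  have hi1 : IntegrableOn (fun t : ℝ => (t : ℂ) ^ (-s)) (Ioi 1) :=
    integrableOn_Ioi_cpow_of_lt (by simpa using hs) one_pos
  have hi2 : IntegrableOn (fun t : ℝ => ((Int.fract t : ℝ) : ℂ) * (t : ℂ) ^ (-(s + 1))) (Ioi 1) := by
    refine Integrable.bdd_mul (c := 1)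
      (integrableOn_Ioi_cpow_of_lt (a := -(s + 1)) (by simp; linarith) one_pos)
      meas_fract.aestronglyMeasurable (Eventually.of_forall norm_fract_le)
  have h1 : ∫ t in Ioi (1 : ℝ), (∑ k ∈ Finset.Icc 1 ⌊t⌋₊, (1 : ℕ → ℂ) k) * (t : ℂ) ^ (-(s + 1)) =
      ∫ t in Ioi (1 : ℝ), ((t : ℂ) ^ (-s) - ((Int.fract t : ℝ) : ℂ) * (t : ℂ) ^ (-(s + 1))) := by
    apply setIntegral_congr_fun measurableSet_Ioi
    intro t ht
    have ht0 : 0 < t := lt_trans one_pos ht
    have ht' : (t : ℂ) ≠ 0 := by exact_mod_cast ht0.ne'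
    have h2 : (t : ℂ) ^ (-s) = t * (t : ℂ) ^ (-(s + 1)) := by
      rw [show -s = 1 + -(s + 1) by ring, cpow_add _ _ ht', cpow_one]
    have h3 : ((⌊t⌋₊ : ℕ) : ℝ) = t - Int.fract t := by
      rw [Int.self_sub_fract, natCast_floor_eq_intCast_floor ht0.le]
    have h4 : ((⌊t⌋₊ : ℕ) : ℂ) = t - ((Int.fract t : ℝ) : ℂ) := by exact_mod_cast h3
    simp only [Pi.one_apply, Finset.sum_const, Nat.card_Icc, add_tsub_cancel_right, nsmul_eq_mul,
      mul_one]
    rw [h4, h2]
    ring
  rw [h1, integral_sub hi1 hi2, integral_Ioi_cpow_of_lt (by simpa using hs) one_pos, ← II]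
  have : -s + 1 ≠ 0 := by
    intro h; apply hs1; linear_combination -h
  simp only [ofReal_one, one_cpow]
  field_simp
  ring

theorem zeta1_eq {s : ℂ} (hs : 0 < s.re) : riemannZeta₁ s = s - s * (s - 1) * II s := by
  have hU : IsOpen {z : ℂ | 0 < z.re} := isOpen_lt continuous_const continuous_re
  have h1 : AnalyticOnNhd ℂ riemannZeta₁ {z : ℂ | 0 < z.re} :=
    differentiable_riemannZeta₁.differentiableOn.analyticOnNhd hU
  have h2 : AnalyticOnNhd ℂ (fun s => s - s * (s - 1) * II s) {z : ℂ | 0 < z.re} := by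
    refine DifferentiableOn.analyticOnNhd ?_ hU
    intro z hz
    have := differentiableAt_II hz
    exact (by fun_prop : DifferentiableAt ℂ (fun s => s - s * (s - 1) * II s) z).differentiableWithinAt
  have hc : IsPreconnected {z : ℂ | 0 < z.re} := (convex_halfSpace_re_gt 0).isPreconnected
  have h3 : riemannZeta₁ =ᶠ[𝓝 2] fun s => s - s * (s - 1) * II s := by
    have : {z : ℂ | 1 < z.re} ∈ 𝓝 (2 : ℂ) :=
      (isOpen_lt continuous_const continuous_re).mem_nhds (by simp)
    filter_upwards [this] with z hz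
    have hz1 : z ≠ 1 := by
      intro h
      rw [h] at hz
      simp at hz
    have hz2 : z - 1 ≠ 0 := sub_ne_zero.mpr hz1
    have h4 := riemannZeta_eq_inv_sub_mul hz1
    rw [zeta_eq_of_one_lt hz] at h4
    have h5 : riemannZeta₁ z = (z - 1) * (z / (z - 1) - z * II z) := by
      rw [h4]; field_simp
    rw [h5]
    field_simp
  exact h1.eqOn_of_preconnected_of_eventuallyEq h2 hc (by simp) h3 hs

theorem norm_zeta_le {s : ℂ} (hs : 0 < s.re) (hs1 : s ≠ 1) :
    ‖riemannZeta s‖ ≤ ‖s‖ / ‖s - 1‖ + ‖s‖ / s.re := by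
  have h2 : s - 1 ≠ 0 := sub_ne_zero.mpr hs1
  have h : riemannZeta s = s / (s - 1) - s * II s := by
    rw [riemannZeta_eq_inv_sub_mul hs1, zeta1_eq hs]
    field_simp
  rw [h]
  refine le_trans (norm_sub_le _ _) (add_le_add (by rw [norm_div]) ?_)
  rw [norm_mul, div_eq_mul_one_div]
  exact mul_le_mul_of_nonneg_left (norm_II_le hs) (norm_nonneg _)

theorem norm_line_le (σ t : ℝ) : ‖(σ : ℂ) + t * I‖ ≤ |σ| + |t| := by
  refine le_trans (norm_add_le _ _) (le_of_eq ?_)
  simp

theorem norm_zeta_half_le (t : ℝ) : ‖riemannZeta (1 / 2 + t * I)‖ ≤ 2 * (1 + |t|) := by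
  have hre : ((1 / 2 : ℂ) + t * I).re = 1 / 2 := by simp
  have hne : (1 / 2 : ℂ) + t * I ≠ 1 := by
    intro h
    rw [h] at hre
    norm_num at hre
  have h1 := norm_zeta_le (by rw [hre]; norm_num) hne
  have h2 : ‖(1 / 2 : ℂ) + t * I - 1‖ = ‖(1 / 2 : ℂ) + t * I‖ := by
    have : (1 / 2 : ℂ) + t * I - 1 = -(starRingEnd ℂ) (1 / 2 + t * I) := by
      simp only [map_add, map_div₀, map_one, map_ofNat, map_mul, conj_ofReal, conj_I]
      ring
    rw [this, norm_neg, RCLike.norm_conj]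
  have h3 : ‖(1 / 2 : ℂ) + t * I‖ ≠ 0 := by
    rw [← h2]; exact norm_ne_zero_iff.mpr (sub_ne_zero.mpr hne)
  rw [h2, div_self h3, hre] at h1
  have h4 := norm_line_le (1 / 2) t
  rw [abs_of_pos (by norm_num : (0 : ℝ) < 1 / 2)] at h4
  push_cast at h4
  linarith

theorem norm_zeta_strip_le {σ t : ℝ} (hσ : σ ∈ Icc (1 / 4 : ℝ) 2) (ht : 1 ≤ |t|) :
    ‖riemannZeta (σ + t * I)‖ ≤ 15 * |t| := by
  have hσ0 : 0 < σ := by linarith [hσ.1]
  have hre : ((σ : ℂ) + t * I).re = σ := by simp
  have him : |t| ≤ ‖(σ : ℂ) + t * I - 1‖ := by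
    have := abs_im_le_norm ((σ : ℂ) + t * I - 1)
    simpa using this
  have hne : (σ : ℂ) + t * I ≠ 1 := by
    intro h
    rw [h, sub_self, norm_zero] at him
    linarith
  have h1 := norm_zeta_le (by rw [hre]; exact hσ0) hne
  have h4 := norm_line_le σ t
  rw [abs_of_pos hσ0] at h4
  have h5 : ‖(σ : ℂ) + t * I‖ ≤ 3 * |t| := by linarith [hσ.2]
  have h6 : ‖(σ : ℂ) + t * I‖ / ‖(σ : ℂ) + t * I - 1‖ ≤ 3 * |t| :=
    le_trans (div_le_self (norm_nonneg _) (by linarith)) h5
  have h7 : ‖(σ : ℂ) + t * I‖ / σ ≤ 12 * |t| := by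
    rw [div_le_iff₀ hσ0]
    nlinarith [hσ.1]
  rw [hre] at h1
  linarith

end Pool.Agent.MP_3d0d30_nt

end MrgPart2

-- marker of a merged file
example : 731051 + 688858 = 731051 + 688858 := rfl
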